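import Pool.Agent.Helper34.Bw.Mob

/-!
Holomorphic maps from the disc to the unit ball of `ℂ^N`: the function `1 - ‖F‖²` satisfies a
Harnack inequality and its logarithm has the super mean value property.
-/

set_option autoImplicit false

namespace Pool.Agent.H64.FA

open Complex Metric Set Filter Topology ComplexConjugate

/-- Schwarz–Pick between `0` and `z`. -/
theorem sp {f : ℂ → ℂ} (hf : DifferentiableOn ℂ f (ball 0 1)) (hb : ∀ z ∈ ball (0:ℂ) 1, ‖f z‖ ≤ 1)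
    {z : ℂ} (hz : ‖z‖ < 1) : ‖f z‖ * (1 + ‖f 0‖ * ‖z‖) ≤ ‖f 0‖ + ‖z‖ := by
  have key : ∀ s ∈ Ioo (0:ℝ) 1, (s * ‖f z‖) * (1 + (s * ‖f 0‖) * ‖z‖) ≤ s * ‖f 0‖ + ‖z‖ := by
    intro s hs
    have hlt : ∀ w : ℂ, ‖w‖ < 1 → ‖(s : ℂ) * f w‖ < 1 := by
      intro w hw
      rw [norm_mul, Complex.norm_real, Real.norm_eq_abs, abs_of_pos hs.1]
      have := hb w (by simpa using hw)
      nlinarith [norm_nonneg (f w), hs.1, hs.2]
    set a : ℂ := (s : ℂ) * f 0 with ha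
    have han : ‖a‖ < 1 := hlt 0 (by simp)
    set b : ℂ := (s : ℂ) * f z with hbd
    have hbn : ‖b‖ < 1 := hlt z hz
    set H : ℂ → ℂ := fun u => Pool.Agent.Helper34.Bw.mob a ((s : ℂ) * f u) with hH
    have hH0 : H 0 = 0 := Pool.Agent.Helper34.Bw.mob_self a
    have hmaps : MapsTo H (ball 0 1) (ball 0 1) := by
      intro u hu
      rw [mem_ball_zero_iff] at hu ⊢
      exact Pool.Agent.Helper34.Bw.norm_mob_lt han (hlt _ hu)
    have hdiff : DifferentiableOn ℂ H (ball 0 1) := by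
      intro u hu
      have h2 : DifferentiableAt ℂ f u := hf.differentiableAt (isOpen_ball.mem_nhds hu)
      rw [mem_ball_zero_iff] at hu
      have h4 : DifferentiableAt ℂ (Pool.Agent.Helper34.Bw.mob a) ((s : ℂ) * f u) :=
        Pool.Agent.Helper34.Bw.differentiableAt_mob han (hlt _ hu).le
      exact (h4.comp u (h2.const_mul _)).differentiableWithinAt
    have h1 : ‖H z‖ ≤ ‖z‖ := by
      have := Complex.norm_le_norm_of_mapsTo_ball hdiff (hmaps.mono_right ball_subset_closedBall) hH0 (z := z) hz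
      exact this
    have h2 := Pool.Agent.Helper34.Bw.one_sub_normSq_mob han hbn.le
    have h3 : (1 - ‖z‖ ^ 2) * ‖1 - conj a * b‖ ^ 2 ≤ (1 - ‖a‖ ^ 2) * (1 - ‖b‖ ^ 2) := by
      have h4 : 0 < ‖1 - conj a * b‖ := norm_pos_iff.2 (Pool.Agent.Helper34.Bw.den_ne han hbn.le)
      have h5 : 1 - ‖z‖ ^ 2 ≤ (1 - ‖a‖ ^ 2) * (1 - ‖b‖ ^ 2) / ‖1 - conj a * b‖ ^ 2 := by
        rw [← h2]
        have : ‖Pool.Agent.Helper34.Bw.mob a b‖ ≤ ‖z‖ := h1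
        have h6 : ‖Pool.Agent.Helper34.Bw.mob a b‖ ^ 2 ≤ ‖z‖ ^ 2 :=
          pow_le_pow_left₀ (norm_nonneg _) this 2
        linarith
      rwa [le_div_iff₀ (by positivity)] at h5
    have h4 : 1 - ‖a‖ * ‖b‖ ≤ ‖1 - conj a * b‖ := by
      have := norm_sub_norm_le (1 : ℂ) (conj a * b)
      rw [norm_one, norm_mul, RCLike.norm_conj] at this
      exact this
    have ha' : ‖a‖ = s * ‖f 0‖ := by
      rw [ha, norm_mul, Complex.norm_real, Real.norm_eq_abs, abs_of_pos hs.1]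
    have hb' : ‖b‖ = s * ‖f z‖ := by
      rw [hbd, norm_mul, Complex.norm_real, Real.norm_eq_abs, abs_of_pos hs.1]
    rw [← ha', ← hb']
    have h5 : 0 ≤ 1 - ‖a‖ * ‖b‖ := by nlinarith [norm_nonneg a, norm_nonneg b]
    have h6 : (1 - ‖z‖ ^ 2) * (1 - ‖a‖ * ‖b‖) ^ 2 ≤ (1 - ‖a‖ ^ 2) * (1 - ‖b‖ ^ 2) := by
      refine le_trans ?_ h3
      apply mul_le_mul_of_nonneg_left (pow_le_pow_left₀ h5 h4 2)
      nlinarith [norm_nonneg z]
    have h7 : (‖b‖ - ‖a‖) ^ 2 ≤ (‖z‖ * (1 - ‖a‖ * ‖b‖)) ^ 2 := by nlinarith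
    have h8 : ‖b‖ - ‖a‖ ≤ ‖z‖ * (1 - ‖a‖ * ‖b‖) :=
      abs_le_of_sq_le_sq' h7 (by positivity) |>.2
    nlinarith
  have h1 : Tendsto (fun s : ℝ => (s * ‖f z‖) * (1 + (s * ‖f 0‖) * ‖z‖)) (𝓝[<] 1)
      (𝓝 ((1 * ‖f z‖) * (1 + (1 * ‖f 0‖) * ‖z‖))) :=
    (Continuous.tendsto (by fun_prop) 1).mono_left nhdsWithin_le_nhds
  have h2 : Tendsto (fun s : ℝ => s * ‖f 0‖ + ‖z‖) (𝓝[<] 1) (𝓝 (1 * ‖f 0‖ + ‖z‖)) :=
    (Continuous.tendsto (by fun_prop) 1).mono_left nhdsWithin_le_nhds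
  simp only [one_mul] at h1 h2
  refine le_of_tendsto_of_tendsto h1 h2 ?_
  filter_upwards [Ioo_mem_nhdsLT (show (0 : ℝ) < 1 by norm_num)] with s hs using key s hs

/-- Cauchy–Schwarz. -/
theorem cs (N : ℕ) (u v : ℕ → ℂ) :
    ‖∑ j ∈ Finset.range N, u j * v j‖ ^ 2 ≤
      (∑ j ∈ Finset.range N, ‖u j‖ ^ 2) * ∑ j ∈ Finset.range N, ‖v j‖ ^ 2 := by
  have h1 : ‖∑ j ∈ Finset.range N, u j * v j‖ ≤ ∑ j ∈ Finset.range N, ‖u j‖ * ‖v j‖ := by
    refine (norm_sum_le _ _).trans (le_of_eq ?_)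
    exact Finset.sum_congr rfl fun j _ => norm_mul _ _
  calc ‖∑ j ∈ Finset.range N, u j * v j‖ ^ 2 ≤ (∑ j ∈ Finset.range N, ‖u j‖ * ‖v j‖) ^ 2 :=
        pow_le_pow_left₀ (norm_nonneg _) h1 2
    _ ≤ _ := Finset.sum_mul_sq_le_sq_mul_sq _ _ _

/-- The squared norm of the vector `(F 0 z, …, F (N-1) z)`. -/
noncomputable def S (F : ℕ → ℂ → ℂ) (N : ℕ) (z : ℂ) : ℝ := ∑ j ∈ Finset.range N, ‖F j z‖ ^ 2

theorem S_nonneg (F : ℕ → ℂ → ℂ) (N : ℕ) (z : ℂ) : 0 ≤ S F N z :=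
  Finset.sum_nonneg fun _ _ => by positivity

theorem lin_diff {F : ℕ → ℂ → ℂ} (hF : ∀ j, DifferentiableOn ℂ (F j) (ball 0 1)) (N : ℕ)
    (u : ℕ → ℂ) : DifferentiableOn ℂ (fun z => ∑ j ∈ Finset.range N, u j * F j z) (ball 0 1) :=
  DifferentiableOn.fun_sum fun j _ => (hF j).const_mul _

/-- Harnack's inequality. -/
theorem harnack {F : ℕ → ℂ → ℂ} (hF : ∀ j, DifferentiableOn ℂ (F j) (ball 0 1)) {N : ℕ}
    (hS : ∀ z ∈ ball (0:ℂ) 1, S F N z ≤ 1) {z : ℂ} (hz : ‖z‖ < 1) :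
    (1 - ‖z‖) * (1 - S F N 0) ≤ (1 + ‖z‖) * (1 - S F N z) := by
  have hS0 := hS 0 (mem_ball_self one_pos)
  have hSz := hS z (by simpa using hz)
  have h00 := S_nonneg F N 0
  have hz0 := norm_nonneg z
  rcases (S_nonneg F N z).eq_or_lt with h0 | h0
  · rw [← h0]
    nlinarith
  set x : ℝ := √(S F N z) with hx
  have hx0 : 0 < x := Real.sqrt_pos.2 h0
  have hxx : x ^ 2 = S F N z := Real.sq_sqrt h0.le
  set y : ℝ := √(S F N 0) with hy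
  have hy0 : 0 ≤ y := Real.sqrt_nonneg _
  have hyy : y ^ 2 = S F N 0 := Real.sq_sqrt h00
  set u : ℕ → ℂ := fun j => conj (F j z) / x with hu
  have hxC : (x : ℂ) ≠ 0 := by exact_mod_cast hx0.ne'
  have hus : ∑ j ∈ Finset.range N, ‖u j‖ ^ 2 = 1 := by
    have h1 : ∀ j, ‖u j‖ ^ 2 = ‖F j z‖ ^ 2 / x ^ 2 := by
      intro j
      simp only [hu]
      rw [norm_div, RCLike.norm_conj, Complex.norm_real, Real.norm_eq_abs, abs_of_pos hx0, div_pow]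
    simp only [h1]
    rw [← Finset.sum_div, hxx]
    exact div_self h0.ne'
  set f : ℂ → ℂ := fun w => ∑ j ∈ Finset.range N, u j * F j w with hf
  have hfd : DifferentiableOn ℂ f (ball 0 1) := lin_diff hF N u
  have hfn : ∀ w, ‖f w‖ ^ 2 ≤ S F N w := by
    intro w
    have := cs N u (fun j => F j w)
    rw [hus, one_mul] at this
    exact this
  have hfb : ∀ w ∈ ball (0:ℂ) 1, ‖f w‖ ≤ 1 := by
    intro w hw
    have h1 := (hfn w).trans (hS w hw)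
    nlinarith [norm_nonneg (f w)]
  have hfz : f z = x := by
    have h1 : ∀ j, u j * F j z = ((‖F j z‖ ^ 2 : ℝ) : ℂ) / x := by
      intro j
      simp only [hu]
      rw [div_mul_eq_mul_div, mul_comm (conj (F j z)), Complex.mul_conj, Complex.normSq_eq_norm_sq]
    simp only [hf, h1]
    rw [← Finset.sum_div, ← Complex.ofReal_sum]
    change ((S F N z : ℝ) : ℂ) / x = x
    rw [← hxx, div_eq_iff hxC]
    push_cast; ring
  have h1 := sp hfd hfb hz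
  rw [hfz, Complex.norm_real, Real.norm_eq_abs, abs_of_pos hx0] at h1
  have hf0 : ‖f 0‖ ≤ y := by
    apply Real.le_sqrt_of_sq_le (hfn 0)
  have hx1 : x ≤ 1 := by nlinarith
  have hy1 : y ≤ 1 := by nlinarith
  have hf00 := norm_nonneg (f 0)
  have h2 : x * (1 + y * ‖z‖) ≤ y + ‖z‖ := by
    have h3 : x * ‖z‖ * (y - ‖f 0‖) ≤ 1 * (y - ‖f 0‖) := by
      apply mul_le_mul_of_nonneg_right _ (by linarith)
      nlinarith
    nlinarith
  rw [← hxx, ← hyy]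
  have h3 : 0 ≤ x * (1 + y * ‖z‖) := by positivity
  have h4 : (x * (1 + y * ‖z‖)) ^ 2 ≤ (y + ‖z‖) ^ 2 := pow_le_pow_left₀ h3 h2 2
  have h5 : (1 - y ^ 2) * (1 - ‖z‖ ^ 2) ≤ (1 + y * ‖z‖) ^ 2 * (1 - x ^ 2) := by nlinarith
  have h6 : (1 + y * ‖z‖) ^ 2 ≤ (1 + ‖z‖) ^ 2 := by
    apply pow_le_pow_left₀ (by positivity)
    nlinarith
  have h7 : 0 ≤ 1 - x ^ 2 := by nlinarith
  have h8 : (1 + y * ‖z‖) ^ 2 * (1 - x ^ 2) ≤ (1 + ‖z‖) ^ 2 * (1 - x ^ 2) :=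
    mul_le_mul_of_nonneg_right h6 h7
  have h9 : (1 + ‖z‖) * ((1 - ‖z‖) * (1 - y ^ 2)) ≤ (1 + ‖z‖) * ((1 + ‖z‖) * (1 - x ^ 2)) := by
    nlinarith
  exact le_of_mul_le_mul_left h9 (by linarith)

/-- The pluriharmonic majorant of `log (1 - ‖F‖²)` which is exact at `0`. -/
theorem majorant (F : ℕ → ℂ → ℂ) (N : ℕ) {z : ℂ} (h0 : S F N 0 ≤ 1) (hz : S F N z ≤ 1) :
    (1 - S F N 0) * (1 - S F N z) ≤
      ‖1 - ∑ j ∈ Finset.range N, conj (F j 0) * F j z‖ ^ 2 := by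
  set x : ℝ := √(S F N z) with hx
  have hx0 : 0 ≤ x := Real.sqrt_nonneg _
  have hxx : x ^ 2 = S F N z := Real.sq_sqrt (S_nonneg _ _ _)
  set y : ℝ := √(S F N 0) with hy
  have hy0 : 0 ≤ y := Real.sqrt_nonneg _
  have hyy : y ^ 2 = S F N 0 := Real.sq_sqrt (S_nonneg _ _ _)
  have h1 : ‖∑ j ∈ Finset.range N, conj (F j 0) * F j z‖ ≤ x * y := by
    have h2 := cs N (fun j => conj (F j 0)) (fun j => F j z)
    simp only [RCLike.norm_conj] at h2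
    have h3 : ‖∑ j ∈ Finset.range N, conj (F j 0) * F j z‖ ^ 2 ≤ (x * y) ^ 2 := by
      refine h2.trans (le_of_eq ?_)
      change S F N 0 * S F N z = _
      rw [← hxx, ← hyy]; ring
    exact abs_le_of_sq_le_sq' h3 (by positivity) |>.2
  have h2 : 1 - x * y ≤ ‖1 - ∑ j ∈ Finset.range N, conj (F j 0) * F j z‖ := by
    have := norm_sub_norm_le (1 : ℂ) (∑ j ∈ Finset.range N, conj (F j 0) * F j z)
    rw [norm_one] at this
    linarith
  have hx1 : x ≤ 1 := by nlinarith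
  have hy1 : y ≤ 1 := by nlinarith
  have h3 : 0 ≤ 1 - x * y := by nlinarith
  have h4 := pow_le_pow_left₀ h3 h2 2
  refine le_trans ?_ h4
  rw [← hxx, ← hyy]
  nlinarith [sq_nonneg (x - y)]

end Pool.Agent.H64.FA
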