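import Pool.Agent.H64.FA.A

/-!
The super mean value property of `log (1 - ‖F‖²)`.
-/

set_option autoImplicit false

namespace Pool.Agent.H64.FA

open Complex Metric Set Filter Topology ComplexConjugate MeasureTheory

/-- `1 - ⟨F z, F 0⟩`. -/
noncomputable def hh (F : ℕ → ℂ → ℂ) (N : ℕ) (z : ℂ) : ℂ :=
  1 - ∑ j ∈ Finset.range N, conj (F j 0) * F j z

theorem hh_diff {F : ℕ → ℂ → ℂ} (hF : ∀ j, DifferentiableOn ℂ (F j) (ball 0 1)) (N : ℕ) :
    DifferentiableOn ℂ (hh F N) (ball 0 1) :=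
  (lin_diff hF N _).const_sub 1

theorem hh_zero (F : ℕ → ℂ → ℂ) (N : ℕ) : hh F N 0 = ((1 - S F N 0 : ℝ) : ℂ) := by
  unfold hh S
  push_cast
  congr 1
  refine Finset.sum_congr rfl fun j _ => ?_
  rw [mul_comm, Complex.mul_conj, Complex.normSq_eq_norm_sq]
  push_cast; ring

theorem pos_of_pos {F : ℕ → ℂ → ℂ} (hF : ∀ j, DifferentiableOn ℂ (F j) (ball 0 1)) {N : ℕ}
    (hS : ∀ z ∈ ball (0:ℂ) 1, S F N z ≤ 1) (h0 : S F N 0 < 1) {z : ℂ} (hz : ‖z‖ < 1) :
    S F N z < 1 := by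
  have h1 := harnack hF hS hz
  have h2 : 0 < (1 - ‖z‖) * (1 - S F N 0) := mul_pos (by linarith) (by linarith)
  have h3 : 0 < (1 + ‖z‖) * (1 - S F N z) := h2.trans_le h1
  have h4 : 0 < 1 - S F N z := by
    by_contra hcon
    have := norm_nonneg z
    nlinarith
  linarith

theorem hh_ne {F : ℕ → ℂ → ℂ} (hF : ∀ j, DifferentiableOn ℂ (F j) (ball 0 1)) {N : ℕ}
    (hS : ∀ z ∈ ball (0:ℂ) 1, S F N z ≤ 1) (h0 : S F N 0 < 1) {z : ℂ} (hz : ‖z‖ < 1) :
    hh F N z ≠ 0 := by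
  intro h
  have h1 := majorant F N h0.le (hS z (by simpa using hz))
  have h2 := pos_of_pos hF hS h0 hz
  have h3 : hh F N z = 1 - ∑ j ∈ Finset.range N, conj (F j 0) * F j z := rfl
  rw [← h3, h, norm_zero] at h1
  have : 0 < (1 - S F N 0) * (1 - S F N z) := mul_pos (by linarith) (by linarith)
  norm_num at h1
  linarith

theorem log_major {F : ℕ → ℂ → ℂ} (hF : ∀ j, DifferentiableOn ℂ (F j) (ball 0 1)) {N : ℕ}
    (hS : ∀ z ∈ ball (0:ℂ) 1, S F N z ≤ 1) (h0 : S F N 0 < 1) {z : ℂ} (hz : ‖z‖ < 1) :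
    Real.log (1 - S F N z) ≤ 2 * Real.log ‖hh F N z‖ - Real.log (1 - S F N 0) := by
  have h1 := majorant F N h0.le (hS z (by simpa using hz))
  have h2 := pos_of_pos hF hS h0 hz
  have h3 : 0 < (1 - S F N 0) * (1 - S F N z) := mul_pos (by linarith) (by linarith)
  have h4 := Real.log_le_log h3 h1
  rw [Real.log_mul (by linarith) (by linarith), Real.log_pow] at h4
  push_cast at h4
  change _ ≤ 2 * Real.log ‖hh F N z‖ at h4
  linarith

theorem avg_hh {F : ℕ → ℂ → ℂ} (hF : ∀ j, DifferentiableOn ℂ (F j) (ball 0 1)) {N : ℕ}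
    (hS : ∀ z ∈ ball (0:ℂ) 1, S F N z ≤ 1) (h0 : S F N 0 < 1) {r : ℝ} (hr : 0 < r) (hr1 : r < 1) :
    Real.circleAverage (fun z => Real.log ‖hh F N z‖) 0 r = Real.log (1 - S F N 0) := by
  have hsub : closedBall (0:ℂ) |r| ⊆ ball 0 1 := by
    rw [abs_of_pos hr]; exact closedBall_subset_ball hr1
  have h1 : AnalyticOnNhd ℂ (hh F N) (closedBall 0 |r|) :=
    ((hh_diff hF N).analyticOnNhd isOpen_ball).mono hsub
  have h2 := h1.circleAverage_log_norm_of_ne_zero (fun u hu => hh_ne hF hS h0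
    (by simpa using hsub hu))
  rw [h2, hh_zero, Complex.norm_real, Real.norm_eq_abs, abs_of_pos (by linarith)]

theorem circ_mem {r : ℝ} (hr : 0 < r) (hr1 : r < 1) (θ : ℝ) : circleMap 0 r θ ∈ ball (0:ℂ) 1 := by
  rw [mem_ball_zero_iff, norm_circleMap_zero, abs_of_pos hr]
  exact hr1

/-- The mean value inequality for a function which is dominated by `1 - ‖F‖²`. -/
theorem log_mean {F : ℕ → ℂ → ℂ} (hF : ∀ j, DifferentiableOn ℂ (F j) (ball 0 1)) {N : ℕ}
    (hS : ∀ z ∈ ball (0:ℂ) 1, S F N z ≤ 1) (h0 : S F N 0 < 1) {r : ℝ} (hr : 0 < r) (hr1 : r < 1)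
    {A : ℂ → ℝ} {κ : ℝ} (hκ : 0 < κ) (hA0 : ∀ θ : ℝ, 0 < A (circleMap 0 r θ))
    (hA : ∀ θ : ℝ, κ * A (circleMap 0 r θ) ≤ 1 - S F N (circleMap 0 r θ))
    (hint : IntervalIntegrable (fun θ : ℝ => Real.log (A (circleMap 0 r θ))) volume 0 (2 * Real.pi)) :
    Real.circleAverage (fun z => Real.log (A z)) 0 r ≤ Real.log (1 - S F N 0) - Real.log κ := by
  have hpi := Real.pi_pos
  have h1 := avg_hh hF hS h0 hr hr1
  rw [Real.circleAverage_def, smul_eq_mul] at h1 ⊢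
  have hcont : Continuous (fun θ : ℝ => Real.log ‖hh F N (circleMap 0 r θ)‖) := by
    have h2 : Continuous (fun θ : ℝ => hh F N (circleMap 0 r θ)) :=
      (hh_diff hF N).continuousOn.comp_continuous (continuous_circleMap 0 r) (circ_mem hr hr1)
    refine h2.norm.log fun θ => ?_
    rw [norm_ne_zero_iff]
    exact hh_ne hF hS h0 (by simpa using circ_mem hr hr1 θ)
  have h3 : ∫ θ in (0:ℝ)..(2 * Real.pi), Real.log (A (circleMap 0 r θ)) ≤
      ∫ θ in (0:ℝ)..(2 * Real.pi), (2 * Real.log ‖hh F N (circleMap 0 r θ)‖ -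
        Real.log (1 - S F N 0) - Real.log κ) := by
    apply intervalIntegral.integral_mono_on (by positivity) hint
    · exact (by fun_prop : Continuous fun θ : ℝ => (2 * Real.log ‖hh F N (circleMap 0 r θ)‖ -
        Real.log (1 - S F N 0) - Real.log κ)).intervalIntegrable _ _
    · intro θ _
      have h4 := log_major hF hS h0 (z := circleMap 0 r θ) (by simpa using circ_mem hr hr1 θ)
      have h5 := Real.log_le_log (mul_pos hκ (hA0 θ)) (hA θ)
      rw [Real.log_mul hκ.ne' (hA0 θ).ne'] at h5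
      linarith
  have h4 : ∫ θ in (0:ℝ)..(2 * Real.pi), (2 * Real.log ‖hh F N (circleMap 0 r θ)‖ -
        Real.log (1 - S F N 0) - Real.log κ) =
      2 * (∫ θ in (0:ℝ)..(2 * Real.pi), Real.log ‖hh F N (circleMap 0 r θ)‖) -
        2 * Real.pi * (Real.log (1 - S F N 0) + Real.log κ) := by
    have h5 : ∀ θ : ℝ, 2 * Real.log ‖hh F N (circleMap 0 r θ)‖ -
        Real.log (1 - S F N 0) - Real.log κ = 2 * Real.log ‖hh F N (circleMap 0 r θ)‖ -
        (Real.log (1 - S F N 0) + Real.log κ) := fun θ => by ring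
    simp only [h5]
    rw [intervalIntegral.integral_sub ((hcont.const_mul 2 |>.intervalIntegrable _ _)) (by simp),
      intervalIntegral.integral_const_mul, intervalIntegral.integral_const]
    simp
  rw [h4] at h3
  have h6 : ∫ θ in (0:ℝ)..(2 * Real.pi), Real.log ‖hh F N (circleMap 0 r θ)‖ =
      2 * Real.pi * Real.log (1 - S F N 0) := by
    rw [← h1]; field_simp
  rw [h6] at h3
  rw [inv_mul_le_iff₀ (by positivity)]
  refine h3.trans (le_of_eq (by ring))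

end Pool.Agent.H64.FA
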