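import Pool.Agent.H713R2.AR.AF4

/-!
Monotonicity of the square mean of a holomorphic function on circles.
-/

set_option autoImplicit false

namespace Pool.Agent.H64.FA

open Complex Metric Set Filter Topology ComplexConjugate MeasureTheory
open Pool.Agent.H713R2 Pool.Agent.H713R2.AR

theorem sq_sum {v : ℂ → ℂ} (hv : DifferentiableOn ℂ v (ball 0 1)) {r : ℝ} (hr : 0 < r)
    (hr1 : r < 1) :
    HasSum (fun k : ℕ => 2 * Real.pi * (‖tc v k‖ ^ 2 * r ^ (2 * k)))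
      (∫ θ in (0:ℝ)..(2 * Real.pi), ‖v (circleMap 0 r θ)‖ ^ 2) := by
  have h1 := parseval_tc hv hv hr hr1
  have h2 : ∀ k : ℕ, 2 * Real.pi * ((starRingEnd ℂ) (tc v k) * tc v k * (r : ℂ) ^ (2 * k)) =
      ((2 * Real.pi * (‖tc v k‖ ^ 2 * r ^ (2 * k)) : ℝ) : ℂ) := by
    intro k
    rw [mul_comm ((starRingEnd ℂ) (tc v k)), Complex.mul_conj, Complex.normSq_eq_norm_sq]
    push_cast; ring
  have h3 : ∀ θ : ℝ, (starRingEnd ℂ) (v (circleMap 0 r θ)) * v (circleMap 0 r θ) =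
      ((‖v (circleMap 0 r θ)‖ ^ 2 : ℝ) : ℂ) := by
    intro θ
    rw [mul_comm, Complex.mul_conj, Complex.normSq_eq_norm_sq]
  simp only [h2, h3] at h1
  rw [intervalIntegral.integral_ofReal, Complex.hasSum_ofReal] at h1
  have hper : Function.Periodic (fun θ : ℝ => ‖v (circleMap 0 r θ)‖ ^ 2) (2 * Real.pi) := by
    intro θ
    simp only [periodic_circleMap 0 r θ]
  have h4 := hper.intervalIntegral_add_eq (-Real.pi) 0
  rw [show -Real.pi + 2 * Real.pi = Real.pi by ring, zero_add] at h4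
  rw [← h4]
  exact h1

theorem sq_mono {v : ℂ → ℂ} (hv : DifferentiableOn ℂ v (ball 0 1)) {r r' : ℝ} (hr : 0 < r)
    (hrr : r ≤ r') (hr' : r' < 1) :
    ∫ θ in (0:ℝ)..(2 * Real.pi), ‖v (circleMap 0 r θ)‖ ^ 2 ≤
      ∫ θ in (0:ℝ)..(2 * Real.pi), ‖v (circleMap 0 r' θ)‖ ^ 2 := by
  refine hasSum_le (fun k => ?_) (sq_sum hv hr (hrr.trans_lt hr')) (sq_sum hv (hr.trans_le hrr) hr')
  have := Real.pi_pos
  gcongr

end Pool.Agent.H64.FA
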