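import Pool.Agent.H64.FA.B
import Pool.Agent.H64.FA.C
import Pool.Agent.Helper203.Fatou

/-!
Functions on a set of parameters which are limits of `1 - ‖F‖²`, `F` holomorphic: Harnack's
inequality, the super mean value property of the logarithm and convergence at the boundary.
-/

set_option autoImplicit false

namespace Pool.Agent.H64.FA

open Complex Metric Set Filter Topology ComplexConjugate MeasureTheory

/-- `α` is approximated on `M` by the functions `1 - ∑_{j<N} ‖v J j‖²`. -/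
structure Approx (M : Set ℂ) (v : ℕ → ℕ → ℂ → ℂ) (κ : ℕ → ℝ) (b : ℕ → ℂ → ℝ) (α : ℂ → ℝ) : Prop where
  closed : IsClosed M
  bdd : ∃ C : ℝ, ∀ c ∈ M, ‖c‖ ≤ C
  cont : ∀ J j, ContinuousOn (v J j) M
  holo : ∀ γ : ℂ → ℂ, DifferentiableOn ℂ γ (ball 0 1) → (∀ t ∈ ball (0:ℂ) 1, γ t ∈ M) →
    ∀ J j, DifferentiableOn ℂ (fun t => v J j (γ t)) (ball 0 1)
  κpos : ∀ J, 0 < κ J
  κlim : Tendsto κ atTop (𝓝 1)
  nonneg : ∀ c ∈ M, 0 ≤ α c
  lower : ∀ c ∈ M, ∀ J N, κ J * α c ≤ 1 - ∑ j ∈ Finset.range N, ‖v J j c‖ ^ 2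
  limN : ∀ c ∈ M, ∀ J, Tendsto (fun N => 1 - ∑ j ∈ Finset.range N, ‖v J j c‖ ^ 2) atTop (𝓝 (b J c))
  limJ : ∀ c ∈ M, Tendsto (fun J => b J c) atTop (𝓝 (α c))

variable {M : Set ℂ} {v : ℕ → ℕ → ℂ → ℂ} {κ : ℕ → ℝ} {b : ℕ → ℂ → ℝ} {α : ℂ → ℝ}

theorem Approx.S_le (h : Approx M v κ b α) {γ : ℂ → ℂ} (hγM : ∀ t ∈ ball (0:ℂ) 1, γ t ∈ M)
    (J N : ℕ) {z : ℂ} (hz : z ∈ ball (0:ℂ) 1) : S (fun j t => v J j (γ t)) N z ≤ 1 := by
  have h1 := h.lower _ (hγM z hz) J N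
  have h2 : 0 ≤ κ J * α (γ z) := mul_nonneg (h.κpos J).le (h.nonneg _ (hγM z hz))
  change ∑ j ∈ Finset.range N, ‖v J j (γ z)‖ ^ 2 ≤ 1
  linarith

/-- Harnack's inequality. -/
theorem Approx.harnack (h : Approx M v κ b α) {γ : ℂ → ℂ} (hγ : DifferentiableOn ℂ γ (ball 0 1))
    (hγM : ∀ t ∈ ball (0:ℂ) 1, γ t ∈ M) {z : ℂ} (hz : ‖z‖ < 1) :
    (1 - ‖z‖) * α (γ 0) ≤ (1 + ‖z‖) * α (γ z) := by
  have hz' : z ∈ ball (0:ℂ) 1 := by simpa using hz
  have h0 := hγM 0 (mem_ball_self one_pos)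
  have h1 : ∀ J N, (1 - ‖z‖) * (κ J * α (γ 0)) ≤
      (1 + ‖z‖) * (1 - ∑ j ∈ Finset.range N, ‖v J j (γ z)‖ ^ 2) := by
    intro J N
    have h2 := Pool.Agent.H64.FA.harnack (h.holo γ hγ hγM J)
      (fun w hw => h.S_le hγM J N hw) hz
    refine le_trans ?_ h2
    exact mul_le_mul_of_nonneg_left (h.lower _ h0 J N) (by linarith)
  have h2 : ∀ J, (1 - ‖z‖) * (κ J * α (γ 0)) ≤ (1 + ‖z‖) * b J (γ z) := fun J =>
    ge_of_tendsto' ((h.limN _ (hγM z hz') J).const_mul _) (h1 J)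
  have h3 : Tendsto (fun J => (1 - ‖z‖) * (κ J * α (γ 0))) atTop
      (𝓝 ((1 - ‖z‖) * (1 * α (γ 0)))) := (h.κlim.mul_const _).const_mul _
  rw [one_mul] at h3
  exact le_of_tendsto_of_tendsto' h3 ((h.limJ _ (hγM z hz')).const_mul _) h2

theorem Approx.le_one (h : Approx M v κ b α) {c : ℂ} (hc : c ∈ M) : α c ≤ 1 := by
  have h1 : ∀ J, κ J * α c ≤ 1 := by
    intro J
    have := h.lower c hc J 0
    simpa using this
  have h2 := h.κlim.mul_const (α c)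
  rw [one_mul] at h2
  exact le_of_tendsto' h2 h1

/-- Measurability along a measurable curve in `M`, which is a limit of continuous curves. -/
theorem Approx.aesm (h : Approx M v κ b α) {μ : Measure ℝ} {g : ℝ → ℂ} (hg : ∀ᵐ θ ∂μ, g θ ∈ M)
    (hφ : ∀ J j, AEStronglyMeasurable (fun θ => ‖v J j (g θ)‖ ^ 2) μ) :
    (∀ J, AEStronglyMeasurable (fun θ => b J (g θ)) μ) ∧
      AEStronglyMeasurable (fun θ => α (g θ)) μ := by
  have h1 : ∀ J, AEStronglyMeasurable (fun θ => b J (g θ)) μ := by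
    intro J
    refine aestronglyMeasurable_of_tendsto_ae atTop
      (f := fun N θ => 1 - ∑ j ∈ Finset.range N, ‖v J j (g θ)‖ ^ 2) (fun N => ?_) ?_
    · have h2 : AEStronglyMeasurable (fun θ => ∑ j ∈ Finset.range N, ‖v J j (g θ)‖ ^ 2) μ :=
        Finset.aestronglyMeasurable_fun_sum _ fun j _ => hφ J j
      exact aestronglyMeasurable_const.sub h2
    · filter_upwards [hg] with θ hθ using h.limN _ hθ J
  refine ⟨h1, aestronglyMeasurable_of_tendsto_ae atTop (f := fun J θ => b J (g θ)) h1 ?_⟩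
  filter_upwards [hg] with θ hθ using h.limJ _ hθ

theorem Approx.circ_cont (h : Approx M v κ b α) {γ : ℂ → ℂ} (hγ : DifferentiableOn ℂ γ (ball 0 1))
    (hγM : ∀ t ∈ ball (0:ℂ) 1, γ t ∈ M) {r : ℝ} (hr : 0 < r) (hr1 : r < 1) (J j : ℕ) :
    Continuous (fun θ : ℝ => ‖v J j (γ (circleMap 0 r θ))‖ ^ 2) := by
  have h2 : Continuous (fun θ : ℝ => v J j (γ (circleMap 0 r θ))) :=
    (h.holo γ hγ hγM J j).continuousOn.comp_continuous (continuous_circleMap 0 r) (circ_mem hr hr1)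
  exact h2.norm.pow 2

theorem Approx.log_low (h : Approx M v κ b α) {γ : ℂ → ℂ} (hγ : DifferentiableOn ℂ γ (ball 0 1))
    (hγM : ∀ t ∈ ball (0:ℂ) 1, γ t ∈ M) {r : ℝ} (hr : 0 < r) (hr1 : r < 1)
    (θ : ℝ) : (1 - r) * α (γ 0) / 2 ≤ α (γ (circleMap 0 r θ)) := by
  have hcM : ∀ θ : ℝ, γ (circleMap 0 r θ) ∈ M := fun θ => hγM _ (circ_mem hr hr1 θ)
  have hnorm : ∀ θ : ℝ, ‖circleMap 0 r θ‖ = r := fun θ => by
    rw [norm_circleMap_zero, abs_of_pos hr]
  have h1 := h.harnack hγ hγM (z := circleMap 0 r θ) (by rw [hnorm]; exact hr1)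
  rw [hnorm] at h1
  have h2 := h.nonneg _ (hcM θ)
  nlinarith

theorem Approx.log_integrable (h : Approx M v κ b α) {γ : ℂ → ℂ}
    (hγ : DifferentiableOn ℂ γ (ball 0 1))
    (hγM : ∀ t ∈ ball (0:ℂ) 1, γ t ∈ M) (hpos : 0 < α (γ 0)) {r : ℝ} (hr : 0 < r) (hr1 : r < 1) :
    IntervalIntegrable (fun θ : ℝ => Real.log (α (γ (circleMap 0 r θ)))) volume 0
      (2 * Real.pi) := by
  have hpi := Real.pi_pos
  have hcM : ∀ θ : ℝ, γ (circleMap 0 r θ) ∈ M := fun θ => hγM _ (circ_mem hr hr1 θ)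
  have hlow := h.log_low hγ hγM hr hr1
  have hm : 0 < (1 - r) * α (γ 0) / 2 := by
    have : 0 < 1 - r := by linarith
    positivity
  have hA0 : ∀ θ : ℝ, 0 < α (γ (circleMap 0 r θ)) := fun θ => hm.trans_le (hlow θ)
  rw [intervalIntegrable_iff, uIoc_of_le (by positivity)]
  have hae := (h.aesm (μ := volume.restrict (Ioc 0 (2 * Real.pi)))
    (g := fun θ => γ (circleMap 0 r θ)) (Eventually.of_forall hcM)
    (fun J j => (h.circ_cont hγ hγM hr hr1 J j).aestronglyMeasurable)).2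
  refine ⟨(Real.measurable_log.comp_aemeasurable hae.aemeasurable).aestronglyMeasurable, ?_⟩
  refine HasFiniteIntegral.of_bounded (C := |Real.log ((1 - r) * α (γ 0) / 2)|)
    (Eventually.of_forall fun θ => ?_)
  rw [Real.norm_eq_abs]
  have h1 := Real.log_le_log hm (hlow θ)
  have h2 := Real.log_nonpos (hA0 θ).le (h.le_one (hcM θ))
  rw [abs_of_nonpos h2, abs_of_nonpos (h1.trans h2)]
  linarith

/-- The super mean value property of the logarithm. -/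
theorem Approx.log_mean (h : Approx M v κ b α) {γ : ℂ → ℂ} (hγ : DifferentiableOn ℂ γ (ball 0 1))
    (hγM : ∀ t ∈ ball (0:ℂ) 1, γ t ∈ M) (hpos : 0 < α (γ 0)) {r : ℝ} (hr : 0 < r) (hr1 : r < 1) :
    Real.circleAverage (fun z => Real.log (α (γ z))) 0 r ≤ Real.log (α (γ 0)) := by
  have h0 := hγM 0 (mem_ball_self one_pos)
  have hcM : ∀ θ : ℝ, γ (circleMap 0 r θ) ∈ M := fun θ => hγM _ (circ_mem hr hr1 θ)
  have hnorm : ∀ θ : ℝ, ‖circleMap 0 r θ‖ = r := fun θ => by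
    rw [norm_circleMap_zero, abs_of_pos hr]
  have hlow : ∀ θ : ℝ, (1 - r) * α (γ 0) / 2 ≤ α (γ (circleMap 0 r θ)) := by
    intro θ
    have h1 := h.harnack hγ hγM (z := circleMap 0 r θ) (by rw [hnorm]; exact hr1)
    rw [hnorm] at h1
    have h2 := h.nonneg _ (hcM θ)
    nlinarith
  have hm : 0 < (1 - r) * α (γ 0) / 2 := by
    have : 0 < 1 - r := by linarith
    positivity
  have hA0 : ∀ θ : ℝ, 0 < α (γ (circleMap 0 r θ)) := fun θ => hm.trans_le (hlow θ)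
  have hint := h.log_integrable hγ hγM hpos hr hr1
  have h1 : ∀ J, ∀ᶠ N in atTop, Real.circleAverage (fun z => Real.log (α (γ z))) 0 r ≤
      Real.log (1 - ∑ j ∈ Finset.range N, ‖v J j (γ 0)‖ ^ 2) - Real.log (κ J) := by
    intro J
    refine Eventually.of_forall fun N => ?_
    have h2 : S (fun j t => v J j (γ t)) N 0 < 1 := by
      have h3 := h.lower _ h0 J N
      have h4 : 0 < κ J * α (γ 0) := mul_pos (h.κpos J) hpos
      change ∑ j ∈ Finset.range N, ‖v J j (γ 0)‖ ^ 2 < 1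
      linarith
    exact Pool.Agent.H64.FA.log_mean (h.holo γ hγ hγM J) (fun w hw => h.S_le hγM J N hw) h2 hr hr1
      (A := fun z => α (γ z)) (h.κpos J) hA0 (fun θ => h.lower _ (hcM θ) J N) hint
  have hbpos : ∀ J, 0 < b J (γ 0) := by
    intro J
    have h3 : κ J * α (γ 0) ≤ b J (γ 0) := ge_of_tendsto' (h.limN _ h0 J) fun N => h.lower _ h0 J N
    exact (mul_pos (h.κpos J) hpos).trans_le h3
  have h2 : ∀ J, Real.circleAverage (fun z => Real.log (α (γ z))) 0 r ≤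
      Real.log (b J (γ 0)) - Real.log (κ J) := by
    intro J
    refine ge_of_tendsto (Tendsto.sub_const ?_ _) (h1 J)
    exact ((Real.continuousAt_log (hbpos J).ne').tendsto).comp (h.limN _ h0 J)
  have h3 : Tendsto (fun J => Real.log (b J (γ 0)) - Real.log (κ J)) atTop
      (𝓝 (Real.log (α (γ 0)) - Real.log 1)) := by
    refine Tendsto.sub ?_ ?_
    · exact ((Real.continuousAt_log hpos.ne').tendsto).comp (h.limJ _ h0)
    · exact ((Real.continuousAt_log one_ne_zero).tendsto).comp h.κlim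
  rw [Real.log_one, sub_zero] at h3
  exact ge_of_tendsto' h3 h2

end Pool.Agent.H64.FA
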