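import Pool.Agent.H64.FA.D

/-!
Convergence at the boundary.
-/

set_option autoImplicit false

namespace Pool.Agent.H64.FA

open Complex Metric Set Filter Topology ComplexConjugate MeasureTheory

variable {M : Set ℂ} {v : ℕ → ℕ → ℂ → ℂ} {κ : ℕ → ℝ} {b : ℕ → ℂ → ℝ} {α : ℂ → ℝ}

theorem Approx.sum_le_one (h : Approx M v κ b α) {c : ℂ} (hc : c ∈ M) (J N : ℕ) :
    ∑ j ∈ Finset.range N, ‖v J j c‖ ^ 2 ≤ 1 := by
  have h1 := h.lower c hc J N
  have h2 := mul_nonneg (h.κpos J).le (h.nonneg c hc)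
  linarith

theorem Approx.term_le_one (h : Approx M v κ b α) {c : ℂ} (hc : c ∈ M) (J j : ℕ) :
    ‖v J j c‖ ^ 2 ≤ 1 := by
  have h1 := h.sum_le_one hc J (j + 1)
  rw [Finset.sum_range_succ] at h1
  have h2 : 0 ≤ ∑ i ∈ Finset.range j, ‖v J i c‖ ^ 2 := Finset.sum_nonneg fun _ _ => by positivity
  linarith

theorem Approx.b_nonneg (h : Approx M v κ b α) {c : ℂ} (hc : c ∈ M) (J : ℕ) : 0 ≤ b J c :=
  ge_of_tendsto' (h.limN _ hc J) fun N => by linarith [h.sum_le_one hc J N]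

theorem Approx.b_le_one (h : Approx M v κ b α) {c : ℂ} (hc : c ∈ M) (J : ℕ) : b J c ≤ 1 :=
  le_of_tendsto' (h.limN _ hc J) fun N => by
    have : 0 ≤ ∑ j ∈ Finset.range N, ‖v J j c‖ ^ 2 := Finset.sum_nonneg fun _ _ => by positivity
    linarith

/-- Comparison of integrals passes to the limit function. -/
theorem Approx.compare (h : Approx M v κ b α) {μ : Measure ℝ} [IsFiniteMeasure μ] {x y : ℝ → ℂ}
    (hx : ∀ᵐ θ ∂μ, x θ ∈ M) (hy : ∀ᵐ θ ∂μ, y θ ∈ M)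
    (hφx : ∀ J j, AEStronglyMeasurable (fun θ => ‖v J j (x θ)‖ ^ 2) μ)
    (hφy : ∀ J j, AEStronglyMeasurable (fun θ => ‖v J j (y θ)‖ ^ 2) μ)
    (hle : ∀ J j, ∫ θ, ‖v J j (x θ)‖ ^ 2 ∂μ ≤ ∫ θ, ‖v J j (y θ)‖ ^ 2 ∂μ) :
    ∫ θ, α (y θ) ∂μ ≤ ∫ θ, α (x θ) ∂μ := by
  have hI : ∀ {w : ℝ → ℂ}, (∀ᵐ θ ∂μ, w θ ∈ M) →
      (∀ J j, AEStronglyMeasurable (fun θ => ‖v J j (w θ)‖ ^ 2) μ) →
      ∀ J j, Integrable (fun θ => ‖v J j (w θ)‖ ^ 2) μ := by
    intro w hw hφ J j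
    refine ⟨hφ J j, HasFiniteIntegral.of_bounded (C := 1) ?_⟩
    filter_upwards [hw] with θ hθ
    rw [Real.norm_eq_abs, abs_of_nonneg (by positivity)]
    exact h.term_le_one hθ J j
  have hN : ∀ {w : ℝ → ℂ}, (∀ᵐ θ ∂μ, w θ ∈ M) →
      (∀ J j, AEStronglyMeasurable (fun θ => ‖v J j (w θ)‖ ^ 2) μ) →
      ∀ J, Tendsto (fun N => ∫ θ, (1 - ∑ j ∈ Finset.range N, ‖v J j (w θ)‖ ^ 2) ∂μ) atTop
        (𝓝 (∫ θ, b J (w θ) ∂μ)) := by
    intro w hw hφ J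
    refine tendsto_integral_of_dominated_convergence (fun _ => (1 : ℝ)) (fun N => ?_)
      (integrable_const _) (fun N => ?_) ?_
    · exact aestronglyMeasurable_const.sub
        (Finset.aestronglyMeasurable_fun_sum _ fun j _ => hφ J j)
    · filter_upwards [hw] with θ hθ
      have h1 := h.sum_le_one hθ J N
      have h2 : 0 ≤ ∑ j ∈ Finset.range N, ‖v J j (w θ)‖ ^ 2 :=
        Finset.sum_nonneg fun _ _ => by positivity
      rw [Real.norm_eq_abs, abs_of_nonneg (by linarith)]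
      linarith
    · filter_upwards [hw] with θ hθ using h.limN _ hθ J
  have hJ : ∀ {w : ℝ → ℂ}, (∀ᵐ θ ∂μ, w θ ∈ M) →
      (∀ J j, AEStronglyMeasurable (fun θ => ‖v J j (w θ)‖ ^ 2) μ) →
      Tendsto (fun J => ∫ θ, b J (w θ) ∂μ) atTop (𝓝 (∫ θ, α (w θ) ∂μ)) := by
    intro w hw hφ
    refine tendsto_integral_of_dominated_convergence (fun _ => (1 : ℝ)) (fun J => ?_)
      (integrable_const _) (fun J => ?_) ?_
    · exact (h.aesm hw hφ).1 J
    · filter_upwards [hw] with θ hθ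
      rw [Real.norm_eq_abs, abs_of_nonneg (h.b_nonneg hθ J)]
      exact h.b_le_one hθ J
    · filter_upwards [hw] with θ hθ using h.limJ _ hθ
  refine le_of_tendsto_of_tendsto' (hJ hy hφy) (hJ hx hφx) fun J => ?_
  refine le_of_tendsto_of_tendsto' (hN hy hφy J) (hN hx hφx J) fun N => ?_
  rw [integral_sub (integrable_const _) (integrable_finsetSum _ fun j _ => hI hy hφy J j),
    integral_sub (integrable_const _) (integrable_finsetSum _ fun j _ => hI hx hφx J j),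
    integral_finsetSum _ (fun j _ => hI hy hφy J j),
    integral_finsetSum _ (fun j _ => hI hx hφx J j)]
  have : ∑ j ∈ Finset.range N, ∫ θ, ‖v J j (x θ)‖ ^ 2 ∂μ ≤
      ∑ j ∈ Finset.range N, ∫ θ, ‖v J j (y θ)‖ ^ 2 ∂μ := Finset.sum_le_sum fun j _ => hle J j
  linarith

theorem Approx.lim_mem (h : Approx M v κ b α) {γ : ℂ → ℂ}
    (hγM : ∀ t ∈ ball (0:ℂ) 1, γ t ∈ M) {g : ℝ → ℂ} {θ : ℝ}
    (hθ : Tendsto (fun r : ℝ => γ (circleMap 0 r θ)) (𝓝[<] 1) (𝓝 (g θ))) : g θ ∈ M := by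
  refine h.closed.mem_of_tendsto hθ ?_
  filter_upwards [Ioo_mem_nhdsLT (show (0 : ℝ) < 1 by norm_num)] with r hr
  exact hγM _ (circ_mem hr.1 hr.2 θ)

theorem Approx.v_tendsto (h : Approx M v κ b α) {γ : ℂ → ℂ}
    (hγM : ∀ t ∈ ball (0:ℂ) 1, γ t ∈ M) {g : ℝ → ℂ} {θ : ℝ}
    (hθ : Tendsto (fun r : ℝ => γ (circleMap 0 r θ)) (𝓝[<] 1) (𝓝 (g θ))) (J j : ℕ) :
    Tendsto (fun r : ℝ => ‖v J j (γ (circleMap 0 r θ))‖ ^ 2) (𝓝[<] 1)
      (𝓝 (‖v J j (g θ)‖ ^ 2)) := by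
  have h1 : ContinuousWithinAt (v J j) M (g θ) := h.cont J j _ (h.lim_mem hγM hθ)
  have h2 : Tendsto (fun r : ℝ => γ (circleMap 0 r θ)) (𝓝[<] 1) (𝓝[M] (g θ)) := by
    refine tendsto_nhdsWithin_iff.2 ⟨hθ, ?_⟩
    filter_upwards [Ioo_mem_nhdsLT (show (0 : ℝ) < 1 by norm_num)] with r hr
    exact hγM _ (circ_mem hr.1 hr.2 θ)
  exact ((h1.tendsto.comp h2).norm).pow 2

theorem Approx.upper (h : Approx M v κ b α) {γ : ℂ → ℂ}
    (hγM : ∀ t ∈ ball (0:ℂ) 1, γ t ∈ M) {g : ℝ → ℂ} {θ : ℝ}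
    (hθ : Tendsto (fun r : ℝ => γ (circleMap 0 r θ)) (𝓝[<] 1) (𝓝 (g θ))) {ε : ℝ} (hε : 0 < ε) :
    ∀ᶠ r in 𝓝[<] (1:ℝ), α (γ (circleMap 0 r θ)) < α (g θ) + ε := by
  have hgM := h.lim_mem hγM hθ
  have h1 : Tendsto (fun J => (κ J)⁻¹ * b J (g θ)) atTop (𝓝 (1⁻¹ * α (g θ))) :=
    (h.κlim.inv₀ one_ne_zero).mul (h.limJ _ hgM)
  rw [inv_one, one_mul] at h1
  obtain ⟨J, hJ⟩ := (h1.eventually (gt_mem_nhds (show α (g θ) < α (g θ) + ε by linarith))).exists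
  have h2 : Tendsto (fun N => (κ J)⁻¹ * (1 - ∑ j ∈ Finset.range N, ‖v J j (g θ)‖ ^ 2)) atTop
      (𝓝 ((κ J)⁻¹ * b J (g θ))) := (h.limN _ hgM J).const_mul _
  obtain ⟨N, hN⟩ := (h2.eventually (gt_mem_nhds hJ)).exists
  have h3 : Tendsto (fun r : ℝ => (κ J)⁻¹ *
      (1 - ∑ j ∈ Finset.range N, ‖v J j (γ (circleMap 0 r θ))‖ ^ 2)) (𝓝[<] 1)
      (𝓝 ((κ J)⁻¹ * (1 - ∑ j ∈ Finset.range N, ‖v J j (g θ)‖ ^ 2))) :=
    (tendsto_const_nhds.sub (tendsto_finsetSum _ fun j _ => h.v_tendsto hγM hθ J j)).const_mul _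
  filter_upwards [h3.eventually (gt_mem_nhds hN),
    Ioo_mem_nhdsLT (show (0 : ℝ) < 1 by norm_num)] with r hr hr2
  have h4 := h.lower _ (hγM _ (circ_mem hr2.1 hr2.2 θ)) J N
  have h5 : α (γ (circleMap 0 r θ)) ≤ (κ J)⁻¹ *
      (1 - ∑ j ∈ Finset.range N, ‖v J j (γ (circleMap 0 r θ))‖ ^ 2) := by
    rw [le_inv_mul_iff₀ (h.κpos J)]; exact h4
  linarith

/-- Convergence in mean at the boundary. -/
theorem Approx.boundary (h : Approx M v κ b α) {γ : ℂ → ℂ} (hγ : DifferentiableOn ℂ γ (ball 0 1))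
    (hγM : ∀ t ∈ ball (0:ℂ) 1, γ t ∈ M) {g : ℝ → ℂ}
    (hg : ∀ᵐ θ : ℝ, Tendsto (fun r : ℝ => γ (circleMap 0 r θ)) (𝓝[<] 1) (𝓝 (g θ))) :
    (∀ r ∈ Ioo (0:ℝ) 1, IntervalIntegrable (fun θ => α (γ (circleMap 0 r θ))) volume 0
      (2 * Real.pi)) ∧
    IntervalIntegrable (fun θ => α (g θ)) volume 0 (2 * Real.pi) ∧
    Tendsto (fun r : ℝ => ∫ θ in (0:ℝ)..(2 * Real.pi),
      |α (γ (circleMap 0 r θ)) - α (g θ)|) (𝓝[<] 1) (𝓝 0) := by
  have hpi := Real.pi_pos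
  set μ : Measure ℝ := volume.restrict (Ioc 0 (2 * Real.pi)) with hμ
  have hgμ : ∀ᵐ θ ∂μ, Tendsto (fun r : ℝ => γ (circleMap 0 r θ)) (𝓝[<] 1) (𝓝 (g θ)) :=
    ae_restrict_of_ae hg
  have hgM : ∀ᵐ θ ∂μ, g θ ∈ M := by
    filter_upwards [hgμ] with θ hθ using h.lim_mem hγM hθ
  have hne : (𝓝[<] (1:ℝ)).NeBot := inferInstance
  have hφr : ∀ r ∈ Ioo (0:ℝ) 1, ∀ J j,
      AEStronglyMeasurable (fun θ => ‖v J j (γ (circleMap 0 r θ))‖ ^ 2) μ := fun r hr J j =>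
    (h.circ_cont hγ hγM hr.1 hr.2 J j).aestronglyMeasurable
  have hev : ∀ᶠ r in 𝓝[<] (1:ℝ), r ∈ Ioo (0:ℝ) 1 := Ioo_mem_nhdsLT (by norm_num)
  have hφg : ∀ J j, AEStronglyMeasurable (fun θ => ‖v J j (g θ)‖ ^ 2) μ := by
    intro J j
    obtain ⟨u, hu⟩ := (𝓝[<] (1:ℝ)).exists_seq_tendsto
    have hu2 := hu.eventually hev
    obtain ⟨n0, hn0⟩ := eventually_atTop.1 hu2
    refine aestronglyMeasurable_of_tendsto_ae atTop
      (f := fun n θ => ‖v J j (γ (circleMap 0 (u (n + n0)) θ))‖ ^ 2) (fun n => ?_) ?_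
    · exact hφr _ (hn0 _ (Nat.le_add_left _ _)) J j
    · filter_upwards [hgμ] with θ hθ
      exact ((h.v_tendsto hγM hθ J j).comp hu).comp (tendsto_add_atTop_nat n0)
  have hrM : ∀ r ∈ Ioo (0:ℝ) 1, ∀ᵐ θ ∂μ, γ (circleMap 0 r θ) ∈ M := fun r hr =>
    Eventually.of_forall fun θ => hγM _ (circ_mem hr.1 hr.2 θ)
  have hXm : ∀ r ∈ Ioo (0:ℝ) 1, AEStronglyMeasurable (fun θ => α (γ (circleMap 0 r θ))) μ :=
    fun r hr => (h.aesm (hrM r hr) (hφr r hr)).2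
  have hYm : AEStronglyMeasurable (fun θ => α (g θ)) μ := (h.aesm hgM hφg).2
  have hXi : ∀ r ∈ Ioo (0:ℝ) 1, Integrable (fun θ => α (γ (circleMap 0 r θ))) μ := by
    intro r hr
    refine ⟨hXm r hr, HasFiniteIntegral.of_bounded (C := 1) ?_⟩
    filter_upwards [hrM r hr] with θ hθ
    rw [Real.norm_eq_abs, abs_of_nonneg (h.nonneg _ hθ)]
    exact h.le_one hθ
  have hYi : Integrable (fun θ => α (g θ)) μ := by
    refine ⟨hYm, HasFiniteIntegral.of_bounded (C := 1) ?_⟩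
    filter_upwards [hgM] with θ hθ
    rw [Real.norm_eq_abs, abs_of_nonneg (h.nonneg _ hθ)]
    exact h.le_one hθ
  -- comparison of the means
  have hP : ∀ r ∈ Ioo (0:ℝ) 1, ∫ θ, α (g θ) ∂μ ≤ ∫ θ, α (γ (circleMap 0 r θ)) ∂μ := by
    intro r hr
    refine h.compare (hrM r hr) hgM (hφr r hr) hφg fun J j => ?_
    have h1 : Tendsto (fun s : ℝ => ∫ θ, ‖v J j (γ (circleMap 0 s θ))‖ ^ 2 ∂μ) (𝓝[<] 1)
        (𝓝 (∫ θ, ‖v J j (g θ)‖ ^ 2 ∂μ)) := by
      refine tendsto_integral_filter_of_dominated_convergence (fun _ => (1 : ℝ)) ?_ ?_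
        (integrable_const _) ?_
      · filter_upwards [hev] with s hs using hφr s hs J j
      · filter_upwards [hev] with s hs
        filter_upwards [hrM s hs] with θ hθ
        rw [Real.norm_eq_abs, abs_of_nonneg (by positivity)]
        exact h.term_le_one hθ J j
      · filter_upwards [hgμ] with θ hθ using h.v_tendsto hγM hθ J j
    refine ge_of_tendsto h1 ?_
    filter_upwards [Ioo_mem_nhdsLT hr.2] with s hs
    have h2 := sq_mono (h.holo γ hγ hγM J j) hr.1 hs.1.le hs.2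
    rw [intervalIntegral.integral_of_le (by positivity),
      intervalIntegral.integral_of_le (by positivity)] at h2
    exact h2
  -- the positive part
  have hR : Tendsto (fun r : ℝ => ∫ θ, max (α (γ (circleMap 0 r θ)) - α (g θ)) 0 ∂μ) (𝓝[<] 1)
      (𝓝 0) := by
    have h1 : Tendsto (fun r : ℝ => ∫ θ, max (α (γ (circleMap 0 r θ)) - α (g θ)) 0 ∂μ) (𝓝[<] 1)
        (𝓝 (∫ _θ, (0:ℝ) ∂μ)) := by
      refine tendsto_integral_filter_of_dominated_convergence (fun _ => (1 : ℝ)) ?_ ?_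
        (integrable_const _) ?_
      · filter_upwards [hev] with s hs
        exact ((hXm s hs).sub hYm).sup aestronglyMeasurable_const
      · filter_upwards [hev] with s hs
        filter_upwards [hrM s hs, hgM] with θ hθ hθ2
        rw [Real.norm_eq_abs, abs_of_nonneg (le_max_right _ _)]
        refine max_le ?_ (by norm_num)
        linarith [h.le_one hθ, h.nonneg _ hθ2]
      · filter_upwards [hgμ] with θ hθ
        rw [Metric.tendsto_nhds]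
        intro ε hε
        filter_upwards [h.upper hγM hθ hε] with r hr
        rw [Real.dist_eq, sub_zero, abs_of_nonneg (le_max_right _ _)]
        exact max_lt (by linarith) hε
    simpa using h1
  refine ⟨fun r hr => ?_, ?_, ?_⟩
  · rw [intervalIntegrable_iff, uIoc_of_le (by positivity)]
    exact hXi r hr
  · rw [intervalIntegrable_iff, uIoc_of_le (by positivity)]
    exact hYi
  · have h2 : Tendsto (fun r : ℝ => 2 * ∫ θ, max (α (γ (circleMap 0 r θ)) - α (g θ)) 0 ∂μ) (𝓝[<] 1)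
        (𝓝 0) := by simpa using hR.const_mul 2
    refine squeeze_zero' (Eventually.of_forall fun r => ?_) ?_ h2
    · exact intervalIntegral.integral_nonneg (by positivity) fun θ _ => abs_nonneg _
    · filter_upwards [hev] with r hr
      rw [intervalIntegral.integral_of_le (by positivity)]
      have h3 : ∀ θ, |α (γ (circleMap 0 r θ)) - α (g θ)| =
          2 * max (α (γ (circleMap 0 r θ)) - α (g θ)) 0 -
            (α (γ (circleMap 0 r θ)) - α (g θ)) := by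
        intro θ
        rcases le_total 0 (α (γ (circleMap 0 r θ)) - α (g θ)) with h4 | h4
        · rw [abs_of_nonneg h4, max_eq_left h4]; ring
        · rw [abs_of_nonpos h4, max_eq_right h4]; ring
      have h5 : Integrable (fun θ => max (α (γ (circleMap 0 r θ)) - α (g θ)) 0) μ :=
        ((hXi r hr).sub hYi).pos_part
      calc ∫ θ in Ioc 0 (2 * Real.pi), |α (γ (circleMap 0 r θ)) - α (g θ)|
          = ∫ θ, (2 * max (α (γ (circleMap 0 r θ)) - α (g θ)) 0 -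
            (α (γ (circleMap 0 r θ)) - α (g θ))) ∂μ := by
            refine integral_congr_ae (Eventually.of_forall fun θ => h3 θ)
        _ = 2 * ∫ θ, max (α (γ (circleMap 0 r θ)) - α (g θ)) 0 ∂μ -
            (∫ θ, α (γ (circleMap 0 r θ)) ∂μ - ∫ θ, α (g θ) ∂μ) := by
            have h6 : Integrable (fun θ => α (γ (circleMap 0 r θ)) - α (g θ)) μ :=
              (hXi r hr).sub hYi
            rw [integral_sub (h5.const_mul 2) h6, integral_const_mul,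
              integral_sub (hXi r hr) hYi]
        _ ≤ _ := by linarith [hP r hr]

end Pool.Agent.H64.FA
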