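import Pool.Agent.H64.FA.E
import Pool.Agent.H713R2.AR.T1

/-!
The area of the filled Julia set of `z ^ d + c` as a limit of functions `1 - ‖F‖²`.
-/

set_option autoImplicit false

namespace Pool.Agent.H64.FA

open Complex Metric Set Filter Topology ComplexConjugate MeasureTheory N62a1eb23 Polynomial
open Pool.Agent.H713R2 Pool.Agent.H712R2 Pool.Agent.H713R2.AR

/-- The coefficient functions. -/
noncomputable def vv (d m : ℕ) (G : ℕ → ℂ × ℂ → ℂ) (J j : ℕ) (c : ℂ) : ℂ :=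
  ((√(((j : ℝ) + 1) / m) * rho d J ^ (j + 1 + m) : ℝ) : ℂ) *
    hb (pc (fun x => G J (c, x))) m (m + (j + 1))

/-- The normalized weighted area of the complement of the level set. -/
noncomputable def bb (d m : ℕ) (G : ℕ → ℂ × ℂ → ℂ) (J : ℕ) (c : ℂ) : ℝ :=
  rho d J ^ (2 * m) * ((m / Real.pi) *
    ∫ z in (UU (fun x => G J (c, x)) (rho d J))ᶜ, ‖z‖ ^ (2 * (m - 1)))

/-- The normalized weighted area of the filled Julia set. -/
noncomputable def aa (d m : ℕ) (c : ℂ) : ℝ :=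
  (m / Real.pi) * ∫ z in KK d c, ‖z‖ ^ (2 * (m - 1))

theorem vv_sum {d m : ℕ} (hd : 2 ≤ d) (hm : 1 ≤ m) (hmd : m < d) {G : ℕ → ℂ × ℂ → ℂ}
    (hG : IsSeq d G) (J : ℕ) {c : ℂ} (hc : Bd d c) :
    HasSum (fun j => ‖vv d m G J j c‖ ^ 2) (1 - bb d m G J c) := by
  have hρ := rho_pos d J
  have h1 := area_eq hρ (rho_lt hd J) (isExt_seq hd hG J hc) hm
  have hlow : ∀ n k, 1 ≤ k → k < d → pc (fun x => G J (c, x)) n k = 0 := fun n k hk hkd =>
    pc_low hd hG J hc n k hk hkd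
  have hFb : Fb (pc (fun x => G J (c, x))) m = X ^ m := by
    rw [Fb_eq]
    have : ∑ k : Fin m, C (pc (fun x => G J (c, x)) m (m - k)) *
        Fb (pc (fun x => G J (c, x))) k = 0 := by
      apply Finset.sum_eq_zero
      intro k _
      rw [hlow m _ (by omega) (by omega)]
      simp
    rw [this, sub_zero]
  rw [hFb] at h1
  have hm0 : (m : ℝ) ≠ 0 := by exact_mod_cast (by omega : m ≠ 0)
  have hmpos : (0 : ℝ) < m := by exact_mod_cast (by omega : 0 < m)
  have hi : ∀ z : ℂ, ‖(derivative (X ^ m : ℂ[X])).eval z‖ ^ 2 =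
      (m : ℝ) ^ 2 * ‖z‖ ^ (2 * (m - 1)) := by
    intro z
    rw [derivative_X_pow]
    simp only [eval_mul, eval_C, eval_pow, eval_X]
    rw [norm_mul, norm_pow, Complex.norm_natCast, mul_pow, ← pow_mul, mul_comm (m - 1) 2]
  simp only [hi] at h1
  rw [integral_const_mul] at h1
  have h2 := h1.mul_left (rho d J ^ (2 * m) / m)
  convert! h2 using 1
  · funext j
    unfold vv
    rw [norm_mul, mul_pow, Complex.norm_real, Real.norm_eq_abs, sq_abs, mul_pow,
      Real.sq_sqrt (by positivity)]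
    rw [← pow_mul, show (j + 1 + m) * 2 = 2 * m + 2 * (j + 1) by ring, pow_add]
    ring
  · unfold bb
    have hρ2 : rho d J ^ (2 * m) ≠ 0 := (pow_pos hρ _).ne'
    field_simp

theorem KK_subset_EE {d : ℕ} (hd : 2 ≤ d) {c : ℂ} (hc : ‖c‖ ≤ 2) (J : ℕ) :
    KK d c ⊆ EE d c J := by
  have h1 := iInter_EE hd hc
  intro z hz
  have h2 : z ∈ ⋂ j, EE d c j := by rw [h1]; exact hz
  exact mem_iInter.1 h2 J

theorem KK_subset_compl {d : ℕ} (hd : 2 ≤ d) {G : ℕ → ℂ × ℂ → ℂ} (hG : IsSeq d G) (J : ℕ) {c : ℂ}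
    (hc : Bd d c) (hc2 : ‖c‖ ≤ 2) : KK d c ⊆ (UU (fun x => G J (c, x)) (rho d J))ᶜ := by
  intro z hz hzU
  obtain ⟨x, ⟨hx0, hxρ⟩, hxz⟩ := hzU
  have hxb : x ∈ ball (0 : ℂ) (rad d J) := by
    rw [mem_ball_zero_iff]; exact hxρ.trans (rho_lt hd J)
  have h1 := (hG.isG J).conj c x (mem_AA_of_Bd hd hc hxb) hx0
  have h2 : ‖(fc d c)^[J] z‖ ≤ 3 := KK_subset_EE hd hc2 J hz
  have h3 : x⁻¹ * G J (c, x) = z := hxz
  rw [h3] at h1
  rw [h1, norm_pow, norm_inv, inv_pow] at h2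
  have h4 : ‖x‖ ^ (d ^ J) < 1 / 3 := by
    rw [← rho_pow hd J]
    exact pow_lt_pow_left₀ hxρ (norm_nonneg _) (pow_ne_zero _ (by omega))
  have h5 : 0 < ‖x‖ ^ (d ^ J) := pow_pos (norm_pos_iff.2 hx0) _
  rw [inv_le_comm₀ h5 (by norm_num)] at h2
  norm_num at h2 h4
  linarith

theorem isClosed_KK {d : ℕ} (hd : 2 ≤ d) {c : ℂ} (hc : ‖c‖ ≤ 2) : IsClosed (KK d c) := by
  have h1 := iInter_EE hd hc
  have h2 : KK d c = ⋂ j, EE d c j := by rw [h1]; rfl
  rw [h2]
  exact isClosed_iInter fun j => (isCompact_EE hd hc j).isClosed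

theorem isCompact_KK {d : ℕ} (hd : 2 ≤ d) {c : ℂ} (hc : ‖c‖ ≤ 2) : IsCompact (KK d c) :=
  (isCompact_EE hd hc 0).of_isClosed_subset (isClosed_KK hd hc) (KK_subset_EE hd hc 0)

theorem lim_EE {d : ℕ} (hd : 2 ≤ d) {c : ℂ} (hc : ‖c‖ ≤ 2) {f : ℂ → ℝ} (hf : Continuous f) :
    Tendsto (fun j => ∫ z in EE d c j, f z) atTop (𝓝 (∫ z in KK d c, f z)) := by
  have h1 := tendsto_setIntegral_of_antitone (μ := volume) (f := f) (s := EE d c)
    (fun j => (isCompact_EE hd hc j).isClosed.measurableSet) (EE_anti hd hc)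
    ⟨0, hf.continuousOn.integrableOn_compact (isCompact_EE hd hc 0)⟩
  rw [iInter_EE hd hc] at h1
  exact h1

theorem rho_lim {d : ℕ} (hd : 2 ≤ d) : Tendsto (rho d) atTop (𝓝 1) := by
  have h1 : Tendsto (fun J : ℕ => (((d ^ J : ℕ) : ℝ)⁻¹)) atTop (𝓝 0) := by
    apply tendsto_inv_atTop_zero.comp
    have h2 : Tendsto (fun n : ℕ => (d : ℝ) ^ n) atTop atTop :=
      tendsto_pow_atTop_atTop_of_one_lt (by exact_mod_cast (by omega : 1 < d))
    refine h2.congr fun n => ?_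
    push_cast; rfl
  have h2 : Tendsto (fun x : ℝ => (1 / 3 : ℝ) ^ x) (𝓝 0) (𝓝 ((1 / 3 : ℝ) ^ (0:ℝ))) :=
    (Real.continuous_const_rpow (by norm_num)).tendsto 0
  rw [Real.rpow_zero] at h2
  exact h2.comp h1

theorem sandwich {d m : ℕ} (hd : 2 ≤ d) {G : ℕ → ℂ × ℂ → ℂ}
    (hG : IsSeq d G) (J : ℕ) {c : ℂ} (hc : Bd d c) (hc2 : ‖c‖ ≤ 2) :
    rho d J ^ (2 * m) * aa d m c ≤ bb d m G J c ∧
    bb d m G J c ≤ rho d J ^ (2 * m) * ((m / Real.pi) *
      ∫ z in EE d c J, ‖z‖ ^ (2 * (m - 1))) := by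
  have hpi := Real.pi_pos
  have hf : Continuous (fun z : ℂ => ‖z‖ ^ (2 * (m - 1))) := by fun_prop
  have hsub := compl_UU_subset hd hG J hc
  have hρ := rho_pos d J
  have hiE : IntegrableOn (fun z : ℂ => ‖z‖ ^ (2 * (m - 1))) (EE d c J) :=
    hf.continuousOn.integrableOn_compact (isCompact_EE hd hc2 J)
  unfold aa bb
  constructor
  · refine mul_le_mul_of_nonneg_left (mul_le_mul_of_nonneg_left ?_ (by positivity)) (by positivity)
    apply setIntegral_mono_set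
    · exact hiE.mono_set hsub
    · exact Filter.Eventually.of_forall fun z => by positivity
    · exact (KK_subset_compl hd hG J hc hc2).eventuallyLE
  · refine mul_le_mul_of_nonneg_left (mul_le_mul_of_nonneg_left ?_ (by positivity)) (by positivity)
    apply setIntegral_mono_set
    · exact hiE
    · exact Filter.Eventually.of_forall fun z => by positivity
    · exact hsub.eventuallyLE

theorem vv_cont {d m : ℕ} (hd : 2 ≤ d) {G : ℕ → ℂ × ℂ → ℂ} (hG : IsSeq d G) {s : Set ℂ}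
    {γ : ℂ → ℂ} (hγ : DifferentiableOn ℂ γ s) (hB : ∀ t ∈ s, Bd d (γ t)) (J j : ℕ) :
    DifferentiableOn ℂ (fun t => vv d m G J j (γ t)) s := by
  unfold vv
  exact (hb_differentiableOn (a := fun t => pc (fun x => G J (γ t, x)))
    (fun n k => pc_holo hd hG hγ hB J n k) m (m + (j + 1))).const_mul _

/-- The approximation. -/
theorem approx_area {d m : ℕ} (hd : 2 ≤ d) (hm : 1 ≤ m) (hmd : m < d) {G : ℕ → ℂ × ℂ → ℂ}
    (hG : IsSeq d G) :
    Approx (multibrotSet d) (vv d m G) (fun J => rho d J ^ (2 * m)) (bb d m G) (aa d m) := by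
  have hpi := Real.pi_pos
  have hBd : ∀ c ∈ multibrotSet d, Bd d c := fun c hc => (mem_multibrot_iff hd c).1 hc
  have h2 : ∀ c ∈ multibrotSet d, ‖c‖ ≤ 2 := fun c hc => by
    have := hBd c hc 1; rwa [P_one hd] at this
  have hκlim : Tendsto (fun J => rho d J ^ (2 * m)) atTop (𝓝 1) := by
    have := (rho_lim hd).pow (2 * m)
    rwa [one_pow] at this
  refine ⟨(isCompact_multibrot hd).isClosed, ⟨2, h2⟩, ?_, ?_, fun J => pow_pos (rho_pos d J) _,
    hκlim, ?_, ?_, ?_, ?_⟩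
  · intro J j
    exact (vv_cont hd hG (γ := fun t => t) differentiableOn_id hBd J j).continuousOn
  · intro γ hγ hγM J j
    exact vv_cont hd hG hγ (fun t ht => hBd _ (hγM t ht)) J j
  · intro c hc
    unfold aa
    refine mul_nonneg (by positivity) (integral_nonneg fun z => by positivity)
  · intro c hc J N
    have h3 := (sandwich (m := m) hd hG J (hBd c hc) (h2 c hc)).1
    have h4 := sum_le_hasSum (Finset.range N) (fun j _ => by positivity)
      (vv_sum hd hm hmd hG J (hBd c hc))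
    linarith
  · intro c hc J
    have h4 := (vv_sum hd hm hmd hG J (hBd c hc)).tendsto_sum_nat.const_sub 1
    rwa [sub_sub_cancel] at h4
  · intro c hc
    have h3 : Tendsto (fun J => rho d J ^ (2 * m) * aa d m c) atTop (𝓝 (aa d m c)) := by
      simpa using hκlim.mul_const (aa d m c)
    have h4 : Tendsto (fun J => rho d J ^ (2 * m) * ((m / Real.pi) *
      ∫ z in EE d c J, ‖z‖ ^ (2 * (m - 1)))) atTop (𝓝 (aa d m c)) := by
      have h5 := hκlim.mul ((lim_EE hd (h2 c hc) (f := fun z : ℂ => ‖z‖ ^ (2 * (m - 1)))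
        (by fun_prop)).const_mul (m / Real.pi))
      rw [one_mul] at h5
      exact h5
    exact tendsto_of_tendsto_of_tendsto_of_le_of_le h3 h4
      (fun J => (sandwich (m := m) hd hG J (hBd c hc) (h2 c hc)).1)
      (fun J => (sandwich (m := m) hd hG J (hBd c hc) (h2 c hc)).2)

end Pool.Agent.H64.FA
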