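import Pool.Agent.H64.FA.E

/-!
Radial limits almost everywhere.
-/

set_option autoImplicit false

namespace Pool.Agent.H64.FA

open Complex Metric Set Filter Topology ComplexConjugate MeasureTheory

variable {M : Set ℂ} {v : ℕ → ℕ → ℂ → ℂ} {κ : ℕ → ℝ} {b : ℕ → ℂ → ℝ} {α : ℂ → ℝ}

/-- Lebesgue measure on the circle, as a measure on an interval. -/
noncomputable def cm : Measure ℝ := volume.restrict (Ioc 0 (2 * Real.pi))

instance : IsFiniteMeasure cm := by unfold cm; infer_instance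

theorem avg_eq (f : ℂ → ℝ) (r : ℝ) :
    Real.circleAverage f 0 r = (2 * Real.pi)⁻¹ * ∫ θ, f (circleMap 0 r θ) ∂cm := by
  have := Real.pi_pos
  rw [Real.circleAverage_def, smul_eq_mul, intervalIntegral.integral_of_le (by positivity)]
  rfl

theorem pk_pos {z : ℂ} (hz : ‖z‖ < 1) (θ : ℝ) : 0 < poissonKernel 0 z (circleMap 0 1 θ) := by
  rw [poissonKernel_def, sub_zero, sub_zero, norm_circleMap_zero, abs_one]
  have h1 : circleMap 0 1 θ - z ≠ 0 := by
    intro h
    rw [sub_eq_zero] at h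
    rw [← h, norm_circleMap_zero, abs_one] at hz
    exact lt_irrefl _ hz
  have h2 : 0 < ‖circleMap 0 1 θ - z‖ := norm_pos_iff.2 h1
  have h3 : 0 < 1 ^ 2 - ‖z‖ ^ 2 := by nlinarith [norm_nonneg z]
  positivity

theorem pk_cont {z : ℂ} (hz : ‖z‖ < 1) :
    Continuous (fun θ : ℝ => poissonKernel 0 z (circleMap 0 1 θ)) := by
  simp only [poissonKernel_def, sub_zero]
  refine Continuous.div (by fun_prop) (by fun_prop) fun θ => ?_
  have h1 : circleMap 0 1 θ - z ≠ 0 := by
    intro h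
    rw [sub_eq_zero] at h
    rw [← h, norm_circleMap_zero, abs_one] at hz
    exact lt_irrefl _ hz
  exact pow_ne_zero _ (norm_ne_zero_iff.2 h1)

/-- The Poisson measure. -/
noncomputable def pm (z : ℂ) : Measure ℝ :=
  cm.withDensity fun θ => ENNReal.ofReal ((2 * Real.pi)⁻¹ * poissonKernel 0 z (circleMap 0 1 θ))

theorem pm_integral {z : ℂ} (hz : ‖z‖ < 1) (f : ℝ → ℝ) :
    ∫ θ, f θ ∂(pm z) =
      (2 * Real.pi)⁻¹ * ∫ θ, poissonKernel 0 z (circleMap 0 1 θ) * f θ ∂cm := by
  have hpi := Real.pi_pos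
  unfold pm
  rw [integral_withDensity_eq_integral_toReal_smul
    (((pk_cont hz).const_mul _).measurable.ennreal_ofReal)
    (Eventually.of_forall fun _ => ENNReal.ofReal_lt_top), ← integral_const_mul]
  refine integral_congr_ae (Eventually.of_forall fun θ => ?_)
  change (ENNReal.ofReal _).toReal • f θ = _
  rw [ENNReal.toReal_ofReal (mul_nonneg (by positivity) (pk_pos hz θ).le), smul_eq_mul]
  ring

theorem pk_avg {z : ℂ} (hz : ‖z‖ < 1) {f : ℂ → ℂ} (hf : DiffContOnCl ℂ f (ball 0 1)) :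
    Real.circleAverage (poissonKernel 0 z • f) 0 1 = f z :=
  hf.circleAverage_poissonKernel_smul (by simpa using hz)

theorem pk_one {z : ℂ} (hz : ‖z‖ < 1) :
    (2 * Real.pi)⁻¹ * ∫ θ, poissonKernel 0 z (circleMap 0 1 θ) ∂cm = 1 := by
  have hpi := Real.pi_pos
  have h1 := pk_avg hz (f := fun _ => (1:ℂ)) diffContOnCl_const
  have h2 : (2 * Real.pi)⁻¹ • ∫ θ in (0:ℝ)..(2 * Real.pi),
      ((poissonKernel 0 z (circleMap 0 1 θ) : ℝ) : ℂ) = 1 := by
    rw [← h1, Real.circleAverage_def]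
    congr 2
    funext θ
    simp
  rw [intervalIntegral.integral_ofReal, intervalIntegral.integral_of_le (by positivity)] at h2
  have h3 : (((2 * Real.pi)⁻¹ * ∫ θ, poissonKernel 0 z (circleMap 0 1 θ) ∂cm : ℝ) : ℂ) = 1 := by
    rw [← h2, real_smul]
    push_cast
    rfl
  exact_mod_cast h3

theorem pm_finite {z : ℂ} (hz : ‖z‖ < 1) : IsFiniteMeasure (pm z) := by
  unfold pm
  apply isFiniteMeasure_withDensity_ofReal
  have h1 : Integrable (fun θ => (2 * Real.pi)⁻¹ * poissonKernel 0 z (circleMap 0 1 θ)) cm := by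
    have h2 : IntegrableOn (fun θ => (2 * Real.pi)⁻¹ * poissonKernel 0 z (circleMap 0 1 θ))
      (Icc 0 (2 * Real.pi)) := ((pk_cont hz).const_mul _).continuousOn.integrableOn_compact isCompact_Icc
    exact h2.mono_set Ioc_subset_Icc_self
  exact h1.2

theorem pm_ac (z : ℂ) : pm z ≪ cm := withDensity_absolutelyContinuous _ _

theorem pm_const {z : ℂ} (hz : ‖z‖ < 1) (a : ℝ) : ∫ _θ, a ∂(pm z) = a := by
  rw [pm_integral hz]
  rw [integral_mul_const, ← mul_assoc, pk_one hz, one_mul]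

end Pool.Agent.H64.FA
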