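import Pool.Agent.H64.FA.G

/-!
Radial limits almost everywhere.
-/

set_option autoImplicit false

namespace Pool.Agent.H64.FA

open Complex Metric Set Filter Topology ComplexConjugate MeasureTheory

variable {M : Set ℂ} {v : ℕ → ℕ → ℂ → ℂ} {κ : ℕ → ℝ} {b : ℕ → ℂ → ℝ} {α : ℂ → ℝ}

theorem mul_circ (r θ : ℝ) : (r : ℂ) * circleMap 0 1 θ = circleMap 0 r θ := by
  simp [circleMap]

theorem ev_Ioo : ∀ᶠ r in 𝓝[<] (1:ℝ), r ∈ Ioo (0:ℝ) 1 := Ioo_mem_nhdsLT (by norm_num)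

/-- The boundary function of a disc. -/
noncomputable def gb (γ : ℂ → ℂ) (ζ : ℂ) : ℂ :=
  limUnder (𝓝[<] (1:ℝ)) (fun r : ℝ => γ ((r : ℂ) * ζ))

theorem gb_spec {γ : ℂ → ℂ} {θ : ℝ}
    (h : ∃ l, Tendsto (fun r : ℝ => γ (circleMap 0 r θ)) (𝓝[<] 1) (𝓝 l)) :
    Tendsto (fun r : ℝ => γ (circleMap 0 r θ)) (𝓝[<] 1) (𝓝 (gb γ (circleMap 0 1 θ))) := by
  unfold gb
  simp only [mul_circ]
  exact tendsto_nhds_limUnder h

theorem Approx.bdry_meas (h : Approx M v κ b α) {γ : ℂ → ℂ} (hγ : DifferentiableOn ℂ γ (ball 0 1))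
    (hγM : ∀ t ∈ ball (0:ℂ) 1, γ t ∈ M) {g : ℝ → ℂ}
    (hg : ∀ᵐ θ ∂cm, Tendsto (fun r : ℝ => γ (circleMap 0 r θ)) (𝓝[<] 1) (𝓝 (g θ))) (J j : ℕ) :
    AEStronglyMeasurable (fun θ => ‖v J j (g θ)‖ ^ 2) cm := by
  have hne : (𝓝[<] (1:ℝ)).NeBot := inferInstance
  obtain ⟨u, hu⟩ := (𝓝[<] (1:ℝ)).exists_seq_tendsto
  have hu2 := hu.eventually ev_Ioo
  obtain ⟨n0, hn0⟩ := eventually_atTop.1 hu2
  refine aestronglyMeasurable_of_tendsto_ae atTop
    (f := fun n θ => ‖v J j (γ (circleMap 0 (u (n + n0)) θ))‖ ^ 2) (fun n => ?_) ?_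
  · have h1 := hn0 (n + n0) (Nat.le_add_left _ _)
    exact (h.circ_cont hγ hγM h1.1 h1.2 J j).aestronglyMeasurable
  · filter_upwards [hg] with θ hθ
    exact ((h.v_tendsto hγM hθ J j).comp hu).comp (tendsto_add_atTop_nat n0)

/-- The Poisson majorization of `‖v‖²`. -/
theorem Approx.poisson_term (h : Approx M v κ b α) {γ : ℂ → ℂ}
    (hγ : DifferentiableOn ℂ γ (ball 0 1))
    (hγM : ∀ t ∈ ball (0:ℂ) 1, γ t ∈ M) {g : ℝ → ℂ}
    (hg : ∀ᵐ θ ∂cm, Tendsto (fun r : ℝ => γ (circleMap 0 r θ)) (𝓝[<] 1) (𝓝 (g θ))) (J j : ℕ)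
    {z : ℂ} (hz : ‖z‖ < 1) :
    ‖v J j (γ z)‖ ^ 2 ≤ ∫ θ, ‖v J j (g θ)‖ ^ 2 ∂(pm z) := by
  have hpi := Real.pi_pos
  have hfin := pm_finite hz
  have hV := h.holo γ hγ hγM J j
  have hac := pm_ac z
  have key : ∀ r ∈ Ioo (0:ℝ) 1, ‖v J j (γ ((r : ℂ) * z))‖ ^ 2 ≤
      ∫ θ, ‖v J j (γ (circleMap 0 r θ))‖ ^ 2 ∂(pm z) := by
    intro r hr
    set F : ℂ → ℂ := fun w => (v J j (γ ((r : ℂ) * w))) ^ 2 with hF
    have hmaps : MapsTo (fun w : ℂ => (r : ℂ) * w) (closedBall 0 1) (ball 0 1) := by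
      intro w hw
      rw [mem_closedBall_zero_iff] at hw
      rw [mem_ball_zero_iff, norm_mul, Complex.norm_real, Real.norm_eq_abs, abs_of_pos hr.1]
      nlinarith [hr.1, hr.2]
    have hFd : DiffContOnCl ℂ F (ball 0 1) := by
      apply DifferentiableOn.diffContOnCl
      rw [closure_ball _ one_ne_zero]
      exact (hV.comp (by fun_prop) hmaps).pow 2
    have h1 := pk_avg hz hFd
    have h2 : ‖F z‖ = ‖v J j (γ ((r : ℂ) * z))‖ ^ 2 := by rw [hF]; simp only; rw [norm_pow]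
    rw [← h2, ← h1, Real.circleAverage_def, norm_smul, norm_inv, Real.norm_eq_abs,
      abs_of_pos (by positivity), pm_integral hz]
    refine mul_le_mul_of_nonneg_left ?_ (by positivity)
    refine (intervalIntegral.norm_integral_le_integral_norm (by positivity)).trans (le_of_eq ?_)
    rw [intervalIntegral.integral_of_le (by positivity)]
    refine integral_congr_ae (Eventually.of_forall fun θ => ?_)
    simp only [Pi.smul_apply', norm_smul, Real.norm_eq_abs, abs_of_pos (pk_pos hz θ), hF, mul_circ,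
      norm_pow]
  have h1 : Tendsto (fun r : ℝ => ‖v J j (γ ((r : ℂ) * z))‖ ^ 2) (𝓝[<] 1)
      (𝓝 (‖v J j (γ z)‖ ^ 2)) := by
    have h2 : ContinuousAt (fun t => v J j (γ t)) z :=
      (hV.differentiableAt (isOpen_ball.mem_nhds (by simpa using hz))).continuousAt
    have h3 : Tendsto (fun r : ℝ => (r : ℂ) * z) (𝓝[<] 1) (𝓝 z) := by
      have h4 : Continuous (fun r : ℝ => (r : ℂ) * z) := by fun_prop
      have h5 := h4.tendsto 1
      simp only [ofReal_one, one_mul] at h5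
      exact h5.mono_left nhdsWithin_le_nhds
    exact ((h2.tendsto.comp h3).norm).pow 2
  have h2 : Tendsto (fun r : ℝ => ∫ θ, ‖v J j (γ (circleMap 0 r θ))‖ ^ 2 ∂(pm z)) (𝓝[<] 1)
      (𝓝 (∫ θ, ‖v J j (g θ)‖ ^ 2 ∂(pm z))) := by
    refine tendsto_integral_filter_of_dominated_convergence (fun _ => (1 : ℝ)) ?_ ?_
      (integrable_const _) ?_
    · filter_upwards [ev_Ioo] with s hs using
        (h.circ_cont hγ hγM hs.1 hs.2 J j).aestronglyMeasurable
    · filter_upwards [ev_Ioo] with s hs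
      refine Eventually.of_forall fun θ => ?_
      rw [Real.norm_eq_abs, abs_of_nonneg (by positivity)]
      exact h.term_le_one (hγM _ (circ_mem hs.1 hs.2 θ)) J j
    · filter_upwards [hac.ae_le hg] with θ hθ using h.v_tendsto hγM hθ J j
  refine le_of_tendsto_of_tendsto h1 h2 ?_
  filter_upwards [ev_Ioo] with r hr using key r hr

theorem Approx.poisson (h : Approx M v κ b α) {γ : ℂ → ℂ}
    (hγ : DifferentiableOn ℂ γ (ball 0 1))
    (hγM : ∀ t ∈ ball (0:ℂ) 1, γ t ∈ M) {g : ℝ → ℂ}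
    (hg : ∀ᵐ θ ∂cm, Tendsto (fun r : ℝ => γ (circleMap 0 r θ)) (𝓝[<] 1) (𝓝 (g θ)))
    {z : ℂ} (hz : ‖z‖ < 1) : ∫ θ, α (g θ) ∂(pm z) ≤ α (γ z) := by
  have hfin := pm_finite hz
  have hac := pm_ac z
  have hgM : ∀ᵐ θ ∂(pm z), g θ ∈ M := by
    filter_upwards [hac.ae_le hg] with θ hθ using h.lim_mem hγM hθ
  have h1 := h.compare (μ := pm z) (x := fun _ => γ z) (y := g)
    (Eventually.of_forall fun _ => hγM z (by simpa using hz)) hgM
    (fun J j => aestronglyMeasurable_const)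
    (fun J j => (h.bdry_meas hγ hγM hg J j).mono_ac hac)
    (fun J j => by
      rw [pm_const hz]
      exact h.poisson_term hγ hγM hg J j hz)
  rwa [pm_const hz] at h1

/-- Radial limits of the Poisson integral of a function with values in `[0, 1]`. -/
theorem radial_poisson {Y : ℂ → ℝ} (hY : CircleIntegrable Y 0 1)
    (hY01 : ∀ᵐ θ ∂cm, Y (circleMap 0 1 θ) ∈ Icc (0:ℝ) 1) :
    ∃ u : ℝ → ℝ, Integrable u cm ∧ (∀ᵐ θ ∂cm, Tendsto
      (fun r : ℝ => ∫ t, Y (circleMap 0 1 t) ∂(pm (circleMap 0 r θ))) (𝓝[<] 1) (𝓝 (u θ))) ∧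
      ∫ θ, u θ ∂cm = ∫ θ, Y (circleMap 0 1 θ) ∂cm := by
  have hpi := Real.pi_pos
  set U : ℂ → ℝ := fun z => ∫ t, Y (circleMap 0 1 t) ∂(pm z) with hU
  set H : ℂ → ℂ := fun z => Real.circleAverage (fun ζ => herglotzRieszKernel 0 z ζ • (Y ζ : ℂ)) 0 1
    with hH
  have hYc : CircleIntegrable (fun ζ => (Y ζ : ℂ)) 0 1 := by
    simp only [CircleIntegrable, intervalIntegrable_iff] at hY ⊢
    exact Complex.ofRealCLM.integrable_comp hY
  have hHd : DifferentiableOn ℂ H (ball 0 1) :=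
    differentiableOn_circleAverage_herglotzRieszKernel_smul hYc
  have hHre : ∀ z, ‖z‖ < 1 → (H z).re = U z := by
    intro z hz
    have h1 := re_circleAverage_herglotzRieszKernel_smul hY (show z ∈ ball (0:ℂ) 1 by simpa using hz)
    rw [hH, hU]
    simp only
    rw [h1, avg_eq, pm_integral hz, ← poissonKernel_eq_re_herglotzRieszKernel]
    rfl
  have hU0 : ∀ z, ‖z‖ < 1 → 0 ≤ U z := by
    intro z hz
    apply integral_nonneg_of_ae
    filter_upwards [(pm_ac z).ae_le hY01] with θ hθ using hθ.1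
  have hYI : Integrable (fun θ => Y (circleMap 0 1 θ)) cm := by
    have h1 := hY
    simp only [CircleIntegrable, intervalIntegrable_iff] at h1
    rw [uIoc_of_le (by positivity)] at h1
    exact h1
  have hU1 : ∀ z, ‖z‖ < 1 → U z ≤ 1 := by
    intro z hz
    have hfin := pm_finite hz
    have h1 : Integrable (fun θ => Y (circleMap 0 1 θ)) (pm z) := by
      refine ⟨hYI.1.mono_ac (pm_ac z), HasFiniteIntegral.of_bounded (C := 1) ?_⟩
      filter_upwards [(pm_ac z).ae_le hY01] with θ hθ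
      rw [Real.norm_eq_abs, abs_of_nonneg hθ.1]
      exact hθ.2
    calc U z ≤ ∫ _θ, (1:ℝ) ∂(pm z) := by
          refine integral_mono_ae h1 (integrable_const _) ?_
          filter_upwards [(pm_ac z).ae_le hY01] with θ hθ using hθ.2
      _ = 1 := pm_const hz 1
  have hfat := Pool.Agent.Helper203.Hardy.fatou (f := fun z => cexp (-H z)) (M := 1)
    (by fun_prop) (by
      intro z hz
      rw [mem_ball_zero_iff] at hz
      rw [Complex.norm_exp, neg_re, hHre z hz]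
      exact Real.exp_le_one_iff.2 (by linarith [hU0 z hz]))
  have hcn : ∀ r ∈ Ioo (0:ℝ) 1, ∀ θ : ℝ, ‖circleMap 0 r θ‖ < 1 := fun r hr θ => by
    simpa using circ_mem hr.1 hr.2 θ
  have hlim : ∀ᵐ θ ∂cm, ∃ u : ℝ, Tendsto (fun r : ℝ => U (circleMap 0 r θ)) (𝓝[<] 1) (𝓝 u) := by
    refine ae_restrict_of_ae ?_
    filter_upwards [hfat] with θ hθ
    obtain ⟨l, hl⟩ := hθ
    refine ⟨-Real.log ‖l‖, ?_⟩
    have hne : (𝓝[<] (1:ℝ)).NeBot := inferInstance
    have h1 := hl.norm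
    have h2 : ∀ᶠ r in 𝓝[<] (1:ℝ), ‖cexp (-H (circleMap 0 r θ))‖ =
        Real.exp (-U (circleMap 0 r θ)) := by
      filter_upwards [ev_Ioo] with r hr
      rw [Complex.norm_exp, neg_re, hHre _ (hcn r hr θ)]
    have h3 : Real.exp (-1) ≤ ‖l‖ := by
      refine ge_of_tendsto h1 ?_
      filter_upwards [ev_Ioo, h2] with r hr h4
      rw [h4]
      exact Real.exp_le_exp.2 (by linarith [hU1 _ (hcn r hr θ)])
    have h4 : ‖l‖ ≠ 0 := ((Real.exp_pos _).trans_le h3).ne'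
    have h5 := ((Real.continuousAt_log h4).tendsto.comp h1).neg
    refine h5.congr' ?_
    filter_upwards [h2] with r h6
    change -Real.log ‖cexp (-H (circleMap 0 r θ))‖ = _
    rw [h6, Real.log_exp, neg_neg]
  set u : ℝ → ℝ := fun θ => limUnder (𝓝[<] (1:ℝ)) (fun r : ℝ => U (circleMap 0 r θ)) with hu
  have hlim2 : ∀ᵐ θ ∂cm, Tendsto (fun r : ℝ => U (circleMap 0 r θ)) (𝓝[<] 1) (𝓝 (u θ)) := by
    filter_upwards [hlim] with θ hθ using tendsto_nhds_limUnder hθ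
  have hUc : ∀ r ∈ Ioo (0:ℝ) 1, Continuous (fun θ => U (circleMap 0 r θ)) := by
    intro r hr
    have h1 : Continuous (fun θ => (H (circleMap 0 r θ)).re) :=
      continuous_re.comp (hHd.continuousOn.comp_continuous (continuous_circleMap 0 r)
        (circ_mem hr.1 hr.2))
    refine h1.congr fun θ => hHre _ (hcn r hr θ)
  have hum : AEStronglyMeasurable u cm := by
    have hne : (𝓝[<] (1:ℝ)).NeBot := inferInstance
    obtain ⟨s, hs⟩ := (𝓝[<] (1:ℝ)).exists_seq_tendsto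
    obtain ⟨n0, hn0⟩ := eventually_atTop.1 (hs.eventually ev_Ioo)
    refine aestronglyMeasurable_of_tendsto_ae atTop
      (f := fun n θ => U (circleMap 0 (s (n + n0)) θ)) (fun n => ?_) ?_
    · exact (hUc _ (hn0 (n + n0) (Nat.le_add_left _ _))).aestronglyMeasurable
    · filter_upwards [hlim2] with θ hθ
      exact (hθ.comp hs).comp (tendsto_add_atTop_nat n0)
  have hu01 : ∀ᵐ θ ∂cm, u θ ∈ Icc (0:ℝ) 1 := by
    filter_upwards [hlim2] with θ hθ
    refine isClosed_Icc.mem_of_tendsto hθ ?_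
    filter_upwards [ev_Ioo] with r hr using ⟨hU0 _ (hcn r hr θ), hU1 _ (hcn r hr θ)⟩
  have hui : Integrable u cm := by
    refine ⟨hum, HasFiniteIntegral.of_bounded (C := 1) ?_⟩
    filter_upwards [hu01] with θ hθ
    rw [Real.norm_eq_abs, abs_of_nonneg hθ.1]
    exact hθ.2
  have hmean : ∀ r ∈ Ioo (0:ℝ) 1, ∫ θ, U (circleMap 0 r θ) ∂cm = ∫ θ, Y (circleMap 0 1 θ) ∂cm := by
    intro r hr
    have hsub : closedBall (0:ℂ) r ⊆ ball 0 1 := closedBall_subset_ball hr.2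
    have h1 : DiffContOnCl ℂ H (ball 0 |r|) := by
      apply DifferentiableOn.diffContOnCl
      rw [abs_of_pos hr.1, closure_ball _ hr.1.ne']
      exact hHd.mono hsub
    have h2 := h1.circleAverage
    have h3 : CircleIntegrable H 0 r := by
      apply ContinuousOn.circleIntegrable hr.1.le
      exact hHd.continuousOn.mono (sphere_subset_closedBall.trans hsub)
    have h4 := Complex.reCLM.circleAverage_comp_comm h3
    rw [h2, avg_eq] at h4
    have h5 : (2 * Real.pi)⁻¹ * ∫ θ, U (circleMap 0 r θ) ∂cm =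
        (2 * Real.pi)⁻¹ * ∫ θ, Y (circleMap 0 1 θ) ∂cm := by
      have h6 : ∫ θ, U (circleMap 0 r θ) ∂cm = ∫ θ, (⇑Complex.reCLM ∘ H) (circleMap 0 r θ) ∂cm := by
        refine integral_congr_ae (Eventually.of_forall fun θ => ?_)
        exact (hHre _ (hcn r hr θ)).symm
      rw [h6, h4]
      change (H 0).re = _
      rw [hHre 0 (by simp), hU]
      simp only
      rw [pm_integral (by simp)]
      congr 1
      refine integral_congr_ae (Eventually.of_forall fun θ => ?_)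
      simp only [poissonKernel_def, sub_zero, norm_circleMap_zero, abs_one, norm_zero]
      norm_num
    exact mul_left_cancel₀ (by positivity) h5
  refine ⟨u, hui, hlim2, ?_⟩
  have hne : (𝓝[<] (1:ℝ)).NeBot := inferInstance
  have h1 : Tendsto (fun r : ℝ => ∫ θ, U (circleMap 0 r θ) ∂cm) (𝓝[<] 1) (𝓝 (∫ θ, u θ ∂cm)) := by
    refine tendsto_integral_filter_of_dominated_convergence (fun _ => (1 : ℝ)) ?_ ?_
      (integrable_const _) hlim2
    · filter_upwards [ev_Ioo] with s hs using (hUc s hs).aestronglyMeasurable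
    · filter_upwards [ev_Ioo] with s hs
      refine Eventually.of_forall fun θ => ?_
      rw [Real.norm_eq_abs, abs_of_nonneg (hU0 _ (hcn s hs θ))]
      exact hU1 _ (hcn s hs θ)
  have h2 : Tendsto (fun r : ℝ => ∫ θ, U (circleMap 0 r θ) ∂cm) (𝓝[<] 1)
      (𝓝 (∫ θ, Y (circleMap 0 1 θ) ∂cm)) := by
    refine tendsto_const_nhds.congr' ?_
    filter_upwards [ev_Ioo] with r hr using (hmean r hr).symm
  exact tendsto_nhds_unique h1 h2

/-- Radial convergence almost everywhere. -/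
theorem Approx.radial (h : Approx M v κ b α) {γ : ℂ → ℂ} (hγ : DifferentiableOn ℂ γ (ball 0 1))
    (hγM : ∀ t ∈ ball (0:ℂ) 1, γ t ∈ M) :
    ∀ᵐ θ ∂cm, ∃ c ∈ M, Tendsto (fun r : ℝ => γ (circleMap 0 r θ)) (𝓝[<] 1) (𝓝 c) ∧
      Tendsto (fun r : ℝ => α (γ (circleMap 0 r θ))) (𝓝[<] 1) (𝓝 (α c)) := by
  have hpi := Real.pi_pos
  obtain ⟨C, hC⟩ := h.bdd
  have hfat := Pool.Agent.Helper203.Hardy.fatou hγ (M := C) fun z hz => hC _ (hγM z hz)
  have hgall : ∀ᵐ θ : ℝ, Tendsto (fun r : ℝ => γ (circleMap 0 r θ)) (𝓝[<] 1)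
      (𝓝 (gb γ (circleMap 0 1 θ))) := by
    filter_upwards [hfat] with θ hθ using gb_spec hθ
  have hg : ∀ᵐ θ ∂cm, Tendsto (fun r : ℝ => γ (circleMap 0 r θ)) (𝓝[<] 1)
      (𝓝 (gb γ (circleMap 0 1 θ))) := ae_restrict_of_ae hgall
  have hgM : ∀ᵐ θ ∂cm, gb γ (circleMap 0 1 θ) ∈ M := by
    filter_upwards [hg] with θ hθ using h.lim_mem hγM (g := fun θ => gb γ (circleMap 0 1 θ)) hθ
  obtain ⟨-, hYi, -⟩ := h.boundary hγ hγM hgall
  have hY01 : ∀ᵐ θ ∂cm, α (gb γ (circleMap 0 1 θ)) ∈ Icc (0:ℝ) 1 := by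
    filter_upwards [hgM] with θ hθ using ⟨h.nonneg _ hθ, h.le_one hθ⟩
  obtain ⟨u, hui, hu, hint⟩ := radial_poisson (Y := fun ζ => α (gb γ ζ)) hYi hY01
  have hYi2 : Integrable (fun θ => α (gb γ (circleMap 0 1 θ))) cm := by
    have h1 := hYi
    rw [intervalIntegrable_iff, uIoc_of_le (by positivity)] at h1
    exact h1
  have hne : (𝓝[<] (1:ℝ)).NeBot := inferInstance
  have hle : ∀ᵐ θ ∂cm, u θ ≤ α (gb γ (circleMap 0 1 θ)) := by
    filter_upwards [hu, hg] with θ h1 h2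
    refine le_of_forall_pos_le_add fun ε hε => ?_
    refine le_of_tendsto h1 ?_
    filter_upwards [ev_Ioo, h.upper (g := fun θ => gb γ (circleMap 0 1 θ)) hγM h2 hε] with r hr h3
    have h4 := h.poisson hγ hγM hg (z := circleMap 0 r θ) (by simpa using circ_mem hr.1 hr.2 θ)
    linarith
  have heq : ∀ᵐ θ ∂cm, α (gb γ (circleMap 0 1 θ)) - u θ = 0 := by
    have h1 : ∫ θ, (α (gb γ (circleMap 0 1 θ)) - u θ) ∂cm = 0 := by
      rw [integral_sub hYi2 hui, hint, sub_self]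
    have h2 := (integral_eq_zero_iff_of_nonneg_ae (by
      filter_upwards [hle] with θ hθ
      simpa using hθ) (hYi2.sub hui)).1 h1
    filter_upwards [h2] with θ hθ using hθ
  filter_upwards [hu, hg, hgM, heq] with θ h1 h2 h3 h4
  refine ⟨_, h3, h2, ?_⟩
  rw [sub_eq_zero] at h4
  rw [← h4] at h1
  rw [Metric.tendsto_nhds] at h1 ⊢
  intro ε hε
  filter_upwards [ev_Ioo, h1 ε hε,
    h.upper (g := fun θ => gb γ (circleMap 0 1 θ)) hγM h2 hε] with r hr h5 h6
  have h7 := h.poisson hγ hγM hg (z := circleMap 0 r θ) (by simpa using circ_mem hr.1 hr.2 θ)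
  rw [Real.dist_eq, abs_lt] at h5 ⊢
  constructor
  · linarith [h5.1]
  · linarith

end Pool.Agent.H64.FA
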