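import Pool.Agent.H64.FA.E

/-!
The two point Schwarz–Pick inequality for maps into the ball, and the resulting lower bound for the
mean of `log (1 - ‖F‖²)`.
-/

set_option autoImplicit false

namespace Pool.Agent.H64.FA

open Complex Metric Set Filter Topology ComplexConjugate MeasureTheory

/-- The numerator of the automorphism of the ball. -/
theorem ball_id (N : ℕ) (a w : ℕ → ℂ) (s : ℝ) (hs : 0 ≤ s)
    (hsa : s ^ 2 = 1 - ∑ j ∈ Finset.range N, ‖a j‖ ^ 2) :
    ‖1 - ∑ j ∈ Finset.range N, conj (a j) * w j‖ ^ 2 -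
      ∑ j ∈ Finset.range N, ‖a j - s * w j -
        ((∑ i ∈ Finset.range N, conj (a i) * w i) / (1 + s : ℝ)) * a j‖ ^ 2 =
      s ^ 2 * (1 - ∑ j ∈ Finset.range N, ‖w j‖ ^ 2) := by
  set p : ℂ := ∑ j ∈ Finset.range N, conj (a j) * w j with hp
  set q : ℂ := 1 - p / (1 + s : ℝ) with hq
  have h1 : ∀ j, ‖a j - s * w j - (p / (1 + s : ℝ)) * a j‖ ^ 2 =
      ‖q‖ ^ 2 * ‖a j‖ ^ 2 + s ^ 2 * ‖w j‖ ^ 2 - 2 * s * (conj q * (conj (a j) * w j)).re := by
    intro j
    have h2 : a j - s * w j - (p / (1 + s : ℝ)) * a j = q * a j - s * w j := by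
      rw [hq]; ring
    rw [h2, ← Complex.normSq_eq_norm_sq, Complex.normSq_sub, Complex.normSq_mul,
      Complex.normSq_mul, Complex.normSq_ofReal, Complex.normSq_eq_norm_sq,
      Complex.normSq_eq_norm_sq, Complex.normSq_eq_norm_sq]
    have h3 : (q * a j * conj ((s : ℂ) * w j)).re = s * (conj q * (conj (a j) * w j)).re := by
      have h4 : (q * a j * conj ((s : ℂ) * w j)) = (s : ℂ) * conj (conj q * (conj (a j) * w j)) := by
        simp only [map_mul, Complex.conj_conj, Complex.conj_ofReal]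
        ring
      rw [h4, Complex.re_ofReal_mul, Complex.conj_re]
    rw [h3]
    ring
  have h2 : ∑ j ∈ Finset.range N, ‖a j - s * w j - (p / (1 + s : ℝ)) * a j‖ ^ 2 =
      ‖q‖ ^ 2 * (1 - s ^ 2) + s ^ 2 * (∑ j ∈ Finset.range N, ‖w j‖ ^ 2) -
        2 * s * (conj q * p).re := by
    rw [Finset.sum_congr rfl fun j _ => h1 j, Finset.sum_sub_distrib, Finset.sum_add_distrib,
      ← Finset.mul_sum, ← Finset.mul_sum, ← Finset.mul_sum]
    have h3 : ∑ j ∈ Finset.range N, ‖a j‖ ^ 2 = 1 - s ^ 2 := by linarith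
    have h4 : ∑ j ∈ Finset.range N, (conj q * (conj (a j) * w j)).re = (conj q * p).re := by
      rw [← Complex.re_sum, ← Finset.mul_sum]
    rw [h3, h4]
  rw [h2]
  have hs1 : (1 + s : ℝ) ≠ 0 := by linarith
  have h5 : ‖q‖ ^ 2 = (1 - p.re / (1 + s)) ^ 2 + (p.im / (1 + s)) ^ 2 := by
    rw [← Complex.normSq_eq_norm_sq, Complex.normSq_apply, hq]
    simp only [sub_re, one_re, Complex.div_ofReal_re, sub_im, one_im, Complex.div_ofReal_im]
    ring
  have h6 : (conj q * p).re = (1 - p.re / (1 + s)) * p.re - (p.im / (1 + s)) * p.im := by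
    rw [hq]
    simp only [map_sub, map_one, mul_re, sub_re, one_re, sub_im, one_im, conj_re, conj_im,
      Complex.div_ofReal_re, Complex.div_ofReal_im]
    ring
  have h7 : ‖1 - p‖ ^ 2 = (1 - p.re) ^ 2 + p.im ^ 2 := by
    rw [← Complex.normSq_eq_norm_sq, Complex.normSq_apply]
    simp only [sub_re, one_re, sub_im, one_im]
    ring
  rw [h5, h6, h7]
  field_simp
  ring

/-- The Schwarz–Pick inequality between `0` and `z`. -/
theorem pick {F : ℕ → ℂ → ℂ} (hF : ∀ j, DifferentiableOn ℂ (F j) (ball 0 1)) {N : ℕ}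
    (hS : ∀ z ∈ ball (0:ℂ) 1, S F N z ≤ 1) (h0 : S F N 0 < 1) {z : ℂ} (hz : ‖z‖ < 1) :
    (1 - ‖z‖ ^ 2) * ‖hh F N z‖ ^ 2 ≤ (1 - S F N 0) * (1 - S F N z) := by
  set s : ℝ := √(1 - S F N 0) with hsd
  have hs : 0 ≤ s := Real.sqrt_nonneg _
  have hss : s ^ 2 = 1 - S F N 0 := Real.sq_sqrt (by linarith)
  set n : ℕ → ℂ → ℂ := fun j t => F j 0 - s * F j t -
        ((∑ i ∈ Finset.range N, conj (F i 0) * F i t) / (1 + s : ℝ)) * F j 0 with hn
  have hid : ∀ t, ‖hh F N t‖ ^ 2 - ∑ j ∈ Finset.range N, ‖n j t‖ ^ 2 =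
      s ^ 2 * (1 - S F N t) := fun t =>
    ball_id N (fun j => F j 0) (fun j => F j t) s hs hss
  have hnd : ∀ j, DifferentiableOn ℂ (n j) (ball 0 1) := by
    intro j
    have h1 := lin_diff hF N (fun i => conj (F i 0))
    have h2 := hF j
    exact ((differentiableOn_const _).sub (h2.const_mul _)).sub ((h1.div_const _).mul_const _)
  set T : ℝ := ∑ j ∈ Finset.range N, ‖n j z‖ ^ 2 with hT
  have hT0 : 0 ≤ T := Finset.sum_nonneg fun _ _ => by positivity
  rcases hT0.eq_or_lt with h0T | hTpos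
  · have h1 := hid z
    rw [← hT, ← h0T, sub_zero] at h1
    rw [h1, hss]
    have h2 : 0 ≤ (1 - S F N 0) * (1 - S F N z) :=
      mul_nonneg (by linarith) (by linarith [hS z (by simpa using hz)])
    nlinarith [norm_nonneg z, sq_nonneg ‖z‖]
  set x : ℝ := √T with hx
  have hx0 : 0 < x := Real.sqrt_pos.2 hTpos
  have hxx : x ^ 2 = T := Real.sq_sqrt hT0
  have hxC : (x : ℂ) ≠ 0 := by exact_mod_cast hx0.ne'
  set u : ℕ → ℂ := fun j => conj (n j z) / x with hu
  have hus : ∑ j ∈ Finset.range N, ‖u j‖ ^ 2 = 1 := by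
    have h1 : ∀ j, ‖u j‖ ^ 2 = ‖n j z‖ ^ 2 / x ^ 2 := by
      intro j
      simp only [hu]
      rw [norm_div, RCLike.norm_conj, Complex.norm_real, Real.norm_eq_abs, abs_of_pos hx0, div_pow]
    simp only [h1]
    rw [← Finset.sum_div, hxx]
    exact div_self hTpos.ne'
  have hne : ∀ t ∈ ball (0:ℂ) 1, hh F N t ≠ 0 := fun t ht =>
    hh_ne hF hS h0 (by simpa using ht)
  set f : ℂ → ℂ := fun t => (∑ j ∈ Finset.range N, u j * n j t) / hh F N t with hf
  have hfd : DifferentiableOn ℂ f (ball 0 1) := by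
    refine DifferentiableOn.div ?_ (hh_diff hF N) hne
    exact DifferentiableOn.fun_sum fun j _ => (hnd j).const_mul _
  have hfb : MapsTo f (ball 0 1) (closedBall 0 1) := by
    intro t ht
    rw [mem_closedBall_zero_iff]
    have h1 := cs N u (fun j => n j t)
    rw [hus, one_mul] at h1
    have h2 := hid t
    have h3 : 0 ≤ s ^ 2 * (1 - S F N t) := mul_nonneg (sq_nonneg s) (by linarith [hS t ht])
    have h4 : ‖∑ j ∈ Finset.range N, u j * n j t‖ ^ 2 ≤ ‖hh F N t‖ ^ 2 := by linarith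
    have h5 : ‖∑ j ∈ Finset.range N, u j * n j t‖ ≤ ‖hh F N t‖ :=
      abs_le_of_sq_le_sq' h4 (norm_nonneg _) |>.2
    rw [hf]
    simp only
    rw [norm_div, div_le_one (norm_pos_iff.2 (hne t ht))]
    exact h5
  have hn0 : ∀ j, n j 0 = 0 := by
    intro j
    have h1 : ∑ i ∈ Finset.range N, conj (F i 0) * F i 0 = ((1 - s ^ 2 : ℝ) : ℂ) := by
      have h2 := hh_zero F N
      unfold hh at h2
      rw [hss]
      have h3 : ∑ i ∈ Finset.range N, conj (F i 0) * F i 0 = 1 - ((1 - S F N 0 : ℝ) : ℂ) := by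
        rw [← h2]; ring
      rw [h3]
      push_cast
      ring
    have hs1 : ((1 + s : ℝ) : ℂ) ≠ 0 := by
      have : (1 + s : ℝ) ≠ 0 := by linarith
      exact_mod_cast this
    simp only [hn]
    rw [h1]
    field_simp
    push_cast
    ring
  have hf0 : f 0 = 0 := by
    simp only [hf, hn0, mul_zero, Finset.sum_const_zero, zero_div]
  have h1 := Complex.norm_le_norm_of_mapsTo_ball hfd hfb hf0 (z := z) hz
  have hfz : ‖f z‖ = x / ‖hh F N z‖ := by
    have h2 : ∀ j, u j * n j z = ((‖n j z‖ ^ 2 : ℝ) : ℂ) / x := by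
      intro j
      simp only [hu]
      rw [div_mul_eq_mul_div, mul_comm (conj (n j z)), Complex.mul_conj, Complex.normSq_eq_norm_sq]
    have h3 : ∑ j ∈ Finset.range N, u j * n j z = x := by
      simp only [h2]
      rw [← Finset.sum_div, ← Complex.ofReal_sum]
      change ((T : ℝ) : ℂ) / x = x
      rw [← hxx, div_eq_iff hxC]
      push_cast; ring
    simp only [hf]
    rw [h3, norm_div, Complex.norm_real, Real.norm_eq_abs, abs_of_pos hx0]
  have hhpos : 0 < ‖hh F N z‖ := norm_pos_iff.2 (hne z (by simpa using hz))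
  rw [hfz, div_le_iff₀ hhpos] at h1
  have h2 : x ^ 2 ≤ (‖z‖ * ‖hh F N z‖) ^ 2 := pow_le_pow_left₀ hx0.le h1 2
  have h3 := hid z
  rw [← hT, hss] at h3
  rw [hxx, mul_pow] at h2
  linarith

/-- The lower bound for the mean of the logarithm. -/
theorem log_mean_low {F : ℕ → ℂ → ℂ} (hF : ∀ j, DifferentiableOn ℂ (F j) (ball 0 1)) {N : ℕ}
    (hS : ∀ z ∈ ball (0:ℂ) 1, S F N z ≤ 1) (h0 : S F N 0 < 1) {r : ℝ} (hr : 0 < r) (hr1 : r < 1) :
    Real.log (1 - S F N 0) + Real.log (1 - r ^ 2) ≤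
      Real.circleAverage (fun z => Real.log (1 - S F N z)) 0 r := by
  have hpi := Real.pi_pos
  have hnr : ∀ θ : ℝ, ‖circleMap 0 r θ‖ = r := fun θ => by
    rw [norm_circleMap_zero, abs_of_pos hr]
  have h1 := avg_hh hF hS h0 hr hr1
  rw [Real.circleAverage_def, smul_eq_mul] at h1 ⊢
  have hcont : Continuous (fun θ : ℝ => Real.log ‖hh F N (circleMap 0 r θ)‖) := by
    have h2 : Continuous (fun θ : ℝ => hh F N (circleMap 0 r θ)) :=
      (hh_diff hF N).continuousOn.comp_continuous (continuous_circleMap 0 r) (circ_mem hr hr1)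
    refine h2.norm.log fun θ => ?_
    rw [norm_ne_zero_iff]
    exact hh_ne hF hS h0 (by simpa using circ_mem hr hr1 θ)
  have hpos : ∀ θ : ℝ, 0 < 1 - S F N (circleMap 0 r θ) := fun θ => by
    have := pos_of_pos hF hS h0 (z := circleMap 0 r θ) (by rw [hnr]; exact hr1)
    linarith
  have hcS : Continuous (fun θ : ℝ => Real.log (1 - S F N (circleMap 0 r θ))) := by
    have h2 : Continuous (fun θ : ℝ => 1 - S F N (circleMap 0 r θ)) := by
      unfold S
      refine continuous_const.sub (continuous_finsetSum _ fun j _ => ?_)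
      have h3 : Continuous (fun θ : ℝ => F j (circleMap 0 r θ)) :=
        (hF j).continuousOn.comp_continuous (continuous_circleMap 0 r) (circ_mem hr hr1)
      exact h3.norm.pow 2
    exact h2.log fun θ => (hpos θ).ne'
  have hr2 : 0 < 1 - r ^ 2 := by nlinarith
  have h3 : ∫ θ in (0:ℝ)..(2 * Real.pi), (2 * Real.log ‖hh F N (circleMap 0 r θ)‖ +
        (Real.log (1 - r ^ 2) - Real.log (1 - S F N 0))) ≤
      ∫ θ in (0:ℝ)..(2 * Real.pi), Real.log (1 - S F N (circleMap 0 r θ)) := by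
    apply intervalIntegral.integral_mono_on (by positivity)
    · exact (by fun_prop : Continuous fun θ : ℝ => (2 * Real.log ‖hh F N (circleMap 0 r θ)‖ +
        (Real.log (1 - r ^ 2) - Real.log (1 - S F N 0)))).intervalIntegrable _ _
    · exact hcS.intervalIntegrable _ _
    · intro θ _
      have h4 := pick hF hS h0 (z := circleMap 0 r θ) (by rw [hnr]; exact hr1)
      rw [hnr] at h4
      have h5 : 0 < ‖hh F N (circleMap 0 r θ)‖ :=
        norm_pos_iff.2 (hh_ne hF hS h0 (by rw [hnr]; exact hr1))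
      have h6 := Real.log_le_log (by positivity) h4
      rw [Real.log_mul hr2.ne' (by positivity), Real.log_mul (by linarith) (hpos θ).ne',
        Real.log_pow] at h6
      push_cast at h6
      linarith
  have h4 : ∫ θ in (0:ℝ)..(2 * Real.pi), (2 * Real.log ‖hh F N (circleMap 0 r θ)‖ +
        (Real.log (1 - r ^ 2) - Real.log (1 - S F N 0))) =
      2 * (∫ θ in (0:ℝ)..(2 * Real.pi), Real.log ‖hh F N (circleMap 0 r θ)‖) +
        2 * Real.pi * (Real.log (1 - r ^ 2) - Real.log (1 - S F N 0)) := by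
    rw [intervalIntegral.integral_add ((hcont.const_mul 2 |>.intervalIntegrable _ _)) (by simp),
      intervalIntegral.integral_const_mul, intervalIntegral.integral_const]
    simp
  rw [h4] at h3
  have h6 : ∫ θ in (0:ℝ)..(2 * Real.pi), Real.log ‖hh F N (circleMap 0 r θ)‖ =
      2 * Real.pi * Real.log (1 - S F N 0) := by
    rw [← h1]; field_simp
  rw [h6] at h3
  rw [le_inv_mul_iff₀ (by positivity)]
  refine le_trans (le_of_eq (by ring)) h3

end Pool.Agent.H64.FA
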