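import Pool.Agent.H64.FA.G
import Pool.Agent.H64.FA.K

/-!
The lower bound for the mean of the logarithm, in the limit.
-/

set_option autoImplicit false

namespace Pool.Agent.H64.FA

open Complex Metric Set Filter Topology ComplexConjugate MeasureTheory

variable {M : Set ℂ} {v : ℕ → ℕ → ℂ → ℂ} {κ : ℕ → ℝ} {b : ℕ → ℂ → ℝ} {α : ℂ → ℝ}

theorem Approx.log_mean_low (h : Approx M v κ b α) {γ : ℂ → ℂ}
    (hγ : DifferentiableOn ℂ γ (ball 0 1)) (hγM : ∀ t ∈ ball (0:ℂ) 1, γ t ∈ M)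
    (hpos : 0 < α (γ 0)) {r : ℝ} (hr : 0 < r) (hr1 : r < 1) :
    Real.log (α (γ 0)) + Real.log (1 - r ^ 2) ≤
      Real.circleAverage (fun z => Real.log (α (γ z))) 0 r := by
  have hpi := Real.pi_pos
  have h0 := hγM 0 (mem_ball_self one_pos)
  have hcM : ∀ θ : ℝ, γ (circleMap 0 r θ) ∈ M := fun θ => hγM _ (circ_mem hr hr1 θ)
  set m0 : ℝ := (1 - r) * α (γ 0) / 2 with hm0
  have hm0pos : 0 < m0 := by
    have : 0 < 1 - r := by linarith
    positivity
  have hlow : ∀ θ : ℝ, m0 ≤ α (γ (circleMap 0 r θ)) := h.log_low hγ hγM hr hr1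
  have hmeas := h.aesm (μ := cm) (g := fun θ => γ (circleMap 0 r θ)) (Eventually.of_forall hcM)
    (fun J j => (h.circ_cont hγ hγM hr hr1 J j).aestronglyMeasurable)
  -- bound for the logarithm
  have hlog : ∀ {x m : ℝ}, 0 < m → m ≤ x → x ≤ 1 → ‖Real.log x‖ ≤ |Real.log m| := by
    intro x m hm hmx hx1
    have h1 := Real.log_le_log hm hmx
    have h2 := Real.log_nonpos (hm.le.trans hmx) hx1
    rw [Real.norm_eq_abs, abs_of_nonpos h2, abs_of_nonpos (h1.trans h2)]
    linarith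
  have hSpos : ∀ J N (θ : ℝ), κ J * m0 ≤
      1 - ∑ j ∈ Finset.range N, ‖v J j (γ (circleMap 0 r θ))‖ ^ 2 := by
    intro J N θ
    exact (mul_le_mul_of_nonneg_left (hlow θ) (h.κpos J).le).trans (h.lower _ (hcM θ) J N)
  have hbpos : ∀ J (θ : ℝ), κ J * m0 ≤ b J (γ (circleMap 0 r θ)) := fun J θ =>
    ge_of_tendsto' (h.limN _ (hcM θ) J) fun N => hSpos J N θ
  have hb0 : ∀ J, 0 < b J (γ 0) := by
    intro J
    have h3 : κ J * α (γ 0) ≤ b J (γ 0) := ge_of_tendsto' (h.limN _ h0 J) fun N => h.lower _ h0 J N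
    exact (mul_pos (h.κpos J) hpos).trans_le h3
  have hJN : ∀ J N, Real.log (1 - ∑ j ∈ Finset.range N, ‖v J j (γ 0)‖ ^ 2) + Real.log (1 - r ^ 2) ≤
      (2 * Real.pi)⁻¹ * ∫ θ, Real.log
        (1 - ∑ j ∈ Finset.range N, ‖v J j (γ (circleMap 0 r θ))‖ ^ 2) ∂cm := by
    intro J N
    have h2 : S (fun j t => v J j (γ t)) N 0 < 1 := by
      have h3 := h.lower _ h0 J N
      have h4 : 0 < κ J * α (γ 0) := mul_pos (h.κpos J) hpos
      change ∑ j ∈ Finset.range N, ‖v J j (γ 0)‖ ^ 2 < 1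
      linarith
    have h3 := Pool.Agent.H64.FA.log_mean_low (h.holo γ hγ hγM J)
      (fun w hw => h.S_le hγM J N hw) h2 hr hr1
    rw [avg_eq] at h3
    exact h3
  have hJ : ∀ J, Real.log (b J (γ 0)) + Real.log (1 - r ^ 2) ≤
      (2 * Real.pi)⁻¹ * ∫ θ, Real.log (b J (γ (circleMap 0 r θ))) ∂cm := by
    intro J
    have hκm : 0 < κ J * m0 := mul_pos (h.κpos J) hm0pos
    have hl1 : Tendsto (fun N => Real.log (1 - ∑ j ∈ Finset.range N, ‖v J j (γ 0)‖ ^ 2) +
        Real.log (1 - r ^ 2)) atTop (𝓝 (Real.log (b J (γ 0)) + Real.log (1 - r ^ 2))) :=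
      (((Real.continuousAt_log (hb0 J).ne').tendsto).comp (h.limN _ h0 J)).add_const _
    have hl2 : Tendsto (fun N => (2 * Real.pi)⁻¹ * ∫ θ, Real.log
        (1 - ∑ j ∈ Finset.range N, ‖v J j (γ (circleMap 0 r θ))‖ ^ 2) ∂cm) atTop
        (𝓝 ((2 * Real.pi)⁻¹ * ∫ θ, Real.log (b J (γ (circleMap 0 r θ))) ∂cm)) := by
      refine Tendsto.const_mul _ ?_
      refine tendsto_integral_of_dominated_convergence (fun _ => |Real.log (κ J * m0)|)
        (fun N => ?_) (integrable_const _) (fun N => Eventually.of_forall fun θ => ?_)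
        (Eventually.of_forall fun θ => ?_)
      · have h5 : Continuous (fun θ : ℝ =>
            1 - ∑ j ∈ Finset.range N, ‖v J j (γ (circleMap 0 r θ))‖ ^ 2) :=
          continuous_const.sub (continuous_finsetSum _ fun j _ => h.circ_cont hγ hγM hr hr1 J j)
        exact (h5.log fun θ => (hκm.trans_le (hSpos J N θ)).ne').aestronglyMeasurable
      · refine hlog hκm (hSpos J N θ) ?_
        have : 0 ≤ ∑ j ∈ Finset.range N, ‖v J j (γ (circleMap 0 r θ))‖ ^ 2 :=
          Finset.sum_nonneg fun _ _ => by positivity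
        linarith
      · exact ((Real.continuousAt_log (hκm.trans_le (hbpos J θ)).ne').tendsto).comp
          (h.limN _ (hcM θ) J)
    exact le_of_tendsto_of_tendsto' hl1 hl2 (hJN J)
  rw [avg_eq]
  have hκhalf : ∀ᶠ J in atTop, 1 / 2 ≤ κ J :=
    h.κlim.eventually (Ici_mem_nhds (by norm_num))
  have hl1 : Tendsto (fun J => Real.log (b J (γ 0)) + Real.log (1 - r ^ 2)) atTop
      (𝓝 (Real.log (α (γ 0)) + Real.log (1 - r ^ 2))) :=
    (((Real.continuousAt_log hpos.ne').tendsto).comp (h.limJ _ h0)).add_const _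
  have hl2 : Tendsto (fun J => (2 * Real.pi)⁻¹ *
      ∫ θ, Real.log (b J (γ (circleMap 0 r θ))) ∂cm) atTop
      (𝓝 ((2 * Real.pi)⁻¹ * ∫ θ, Real.log (α (γ (circleMap 0 r θ))) ∂cm)) := by
    refine Tendsto.const_mul _ ?_
    refine tendsto_integral_filter_of_dominated_convergence (fun _ => |Real.log (1 / 2 * m0)|)
      (Eventually.of_forall fun J => ?_) ?_ (integrable_const _) (Eventually.of_forall fun θ => ?_)
    · exact (Real.measurable_log.comp_aemeasurable (hmeas.1 J).aemeasurable).aestronglyMeasurable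
    · filter_upwards [hκhalf] with J hJ2
      refine Eventually.of_forall fun θ => ?_
      refine hlog (by positivity) ?_ (h.b_le_one (hcM θ) J)
      exact (mul_le_mul_of_nonneg_right hJ2 hm0pos.le).trans (hbpos J θ)
    · exact ((Real.continuousAt_log (hm0pos.trans_le (hlow θ)).ne').tendsto).comp
        (h.limJ _ (hcM θ))
  exact le_of_tendsto_of_tendsto' hl1 hl2 hJ

end Pool.Agent.H64.FA
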