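import Pool.Agent.H64.FA.F
import Pool.Agent.H64.FA.H
import Pool.Agent.H64.FA.L

/-!
The weighted area of the filled Julia set along holomorphic discs of parameters.
-/

set_option autoImplicit false

namespace Pool.Agent.H64.FA

open Complex Metric Set Filter Topology ComplexConjugate MeasureTheory N62a1eb23
open Pool.Agent.H713R2 Pool.Agent.H712R2 Pool.Agent.H713R2.AR

variable {M : Set ℂ} {v : ℕ → ℕ → ℂ → ℂ} {κ : ℕ → ℝ} {b : ℕ → ℂ → ℝ} {α : ℂ → ℝ}

/-- The boundary function and the Poisson minorant. -/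
theorem Approx.radial' (h : Approx M v κ b α) {γ : ℂ → ℂ} (hγ : DifferentiableOn ℂ γ (ball 0 1))
    (hγM : ∀ t ∈ ball (0:ℂ) 1, γ t ∈ M) :
    ∃ g : ℝ → ℂ, (∀ᵐ θ ∂cm, g θ ∈ M ∧
      Tendsto (fun r : ℝ => γ (circleMap 0 r θ)) (𝓝[<] 1) (𝓝 (g θ)) ∧
      Tendsto (fun r : ℝ => α (γ (circleMap 0 r θ))) (𝓝[<] 1) (𝓝 (α (g θ)))) ∧
      Integrable (fun θ => α (g θ)) cm ∧
      ∀ z : ℂ, ‖z‖ < 1 →
        (2 * Real.pi)⁻¹ * ∫ θ, poissonKernel 0 z (circleMap 0 1 θ) * α (g θ) ∂cm ≤ α (γ z) := by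
  have hpi := Real.pi_pos
  obtain ⟨C, hC⟩ := h.bdd
  have hfat := Pool.Agent.Helper203.Hardy.fatou hγ (M := C) fun z hz => hC _ (hγM z hz)
  have hgall : ∀ᵐ θ : ℝ, Tendsto (fun r : ℝ => γ (circleMap 0 r θ)) (𝓝[<] 1)
      (𝓝 (gb γ (circleMap 0 1 θ))) := by
    filter_upwards [hfat] with θ hθ using gb_spec hθ
  have hg : ∀ᵐ θ ∂cm, Tendsto (fun r : ℝ => γ (circleMap 0 r θ)) (𝓝[<] 1)
      (𝓝 (gb γ (circleMap 0 1 θ))) := ae_restrict_of_ae hgall
  obtain ⟨-, hYi, -⟩ := h.boundary hγ hγM hgall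
  rw [intervalIntegrable_iff, uIoc_of_le (by positivity)] at hYi
  have hne : (𝓝[<] (1:ℝ)).NeBot := inferInstance
  refine ⟨fun θ => gb γ (circleMap 0 1 θ), ?_, hYi, fun z hz => ?_⟩
  · filter_upwards [hg, h.radial hγ hγM] with θ h1 h2
    obtain ⟨c, hc, h3, h4⟩ := h2
    have h5 : gb γ (circleMap 0 1 θ) = c := tendsto_nhds_unique h1 h3
    simp only [h5]
    exact ⟨hc, h3, h4⟩
  · rw [← pm_integral hz]
    exact h.poisson hγ hγM hg hz

/-- The moment of the filled Julia set. -/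
noncomputable def mo (d m : ℕ) (c : ℂ) : ℝ := ∫ z in KK d c, ‖z‖ ^ (2 * (m - 1))

theorem aa_eq (d m : ℕ) (c : ℂ) : aa d m c = (m / Real.pi) * mo d m c := rfl

theorem mo_eq {d m : ℕ} (hm : 1 ≤ m) (c : ℂ) : mo d m c = (Real.pi / m) * aa d m c := by
  have hpi := Real.pi_pos
  have hm0 : (0:ℝ) < m := by exact_mod_cast (by omega : 0 < m)
  rw [aa_eq]
  field_simp

/-- A holomorphic disc of parameters without attracting cycles which meets the Multibrot set at its
centre is contained in it. -/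
theorem inside {d : ℕ} (hd : 2 ≤ d) {γ : ℂ → ℂ} (hγ : DifferentiableOn ℂ γ (ball 0 1))
    (h0 : γ 0 ∈ multibrotSet d) (hno : ∀ t ∈ ball (0 : ℂ) 1,
      ¬ ∃ k z, IsAttractingCycle (fun z => z ^ d + γ t) k z) :
    ∀ t ∈ ball (0 : ℂ) 1, γ t ∈ multibrotSet d := by
  have hmem : (0:ℂ) ∈ ball (0 : ℂ) 1 := mem_ball_self one_pos
  rcases (hγ.analyticOnNhd isOpen_ball).is_constant_or_isOpen
    (convex_ball (0:ℂ) 1).isPreconnected with ⟨w, hw⟩ | hopen
  · intro t ht
    rw [hw t ht, ← hw 0 hmem]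
    exact h0
  · have hV : IsOpen (γ '' ball 0 1) := hopen _ Subset.rfl isOpen_ball
    have hVc : IsPreconnected (γ '' ball 0 1) :=
      (convex_ball (0:ℂ) 1).isPreconnected.image _ hγ.continuousOn
    have h1 := open_subset hd hV hVc (mem_image_of_mem γ hmem) h0 (by
      rintro _ ⟨t, ht, rfl⟩
      exact hno t ht)
    exact fun t ht => h1 (mem_image_of_mem γ ht)

theorem main {d m : ℕ} (hm : 1 ≤ m) (hmd : m < d) {γ : ℂ → ℂ}
    (hγ : DifferentiableOn ℂ γ (ball 0 1)) (hγM : ∀ t ∈ ball (0 : ℂ) 1, γ t ∈ multibrotSet d) :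
    (∀ z : ℂ, ‖z‖ < 1 → (1 - ‖z‖) * mo d m (γ 0) ≤ (1 + ‖z‖) * mo d m (γ z)) ∧
    (0 < mo d m (γ 0) → ∀ r : ℝ, 0 < r → r < 1 →
      CircleIntegrable (fun z => Real.log (mo d m (γ z))) 0 r ∧
      Real.log (mo d m (γ 0)) + Real.log (1 - r ^ 2) ≤
        Real.circleAverage (fun z => Real.log (mo d m (γ z))) 0 r ∧
      Real.circleAverage (fun z => Real.log (mo d m (γ z))) 0 r ≤ Real.log (mo d m (γ 0))) ∧
    ∃ g : ℝ → ℂ, (∀ᵐ θ ∂(volume.restrict (Ioc 0 (2 * Real.pi))), g θ ∈ multibrotSet d ∧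
      Tendsto (fun r : ℝ => γ (circleMap 0 r θ)) (𝓝[<] 1) (𝓝 (g θ)) ∧
      Tendsto (fun r : ℝ => mo d m (γ (circleMap 0 r θ))) (𝓝[<] 1) (𝓝 (mo d m (g θ)))) ∧
      IntegrableOn (fun θ => mo d m (g θ)) (Ioc 0 (2 * Real.pi)) ∧
      ∀ z : ℂ, ‖z‖ < 1 → (2 * Real.pi)⁻¹ * ∫ θ in Ioc 0 (2 * Real.pi),
        poissonKernel 0 z (circleMap 0 1 θ) * mo d m (g θ) ≤ mo d m (γ z) := by
  have hd : 2 ≤ d := by omega
  have hpi := Real.pi_pos
  have hm0 : (0:ℝ) < m := by exact_mod_cast (by omega : 0 < m)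
  obtain ⟨G, hG⟩ := exists_seq hd
  have hA := approx_area hd hm hmd hG
  have hk : 0 < Real.pi / m := by positivity
  refine ⟨fun z hz => ?_, fun hpos r hr hr1 => ?_, ?_⟩
  · have h1 := hA.harnack hγ hγM hz
    rw [mo_eq hm, mo_eq hm]
    nlinarith
  · have hpos' : 0 < aa d m (γ 0) := by rw [aa_eq]; positivity
    have h1 := hA.log_integrable hγ hγM hpos' hr hr1
    have h2 := hA.log_mean hγ hγM hpos' hr hr1
    have h2' := hA.log_mean_low hγ hγM hpos' hr hr1
    have hcpos : ∀ θ : ℝ, 0 < aa d m (γ (circleMap 0 r θ)) := by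
      intro θ
      have h3 := hA.log_low hγ hγM hr hr1 θ
      have h4 : 0 < (1 - r) * aa d m (γ 0) / 2 := by
        have : 0 < 1 - r := by linarith
        positivity
      linarith
    have h3 : ∀ θ : ℝ, Real.log (mo d m (γ (circleMap 0 r θ))) =
        Real.log (Real.pi / m) + Real.log (aa d m (γ (circleMap 0 r θ))) := by
      intro θ
      rw [mo_eq hm, Real.log_mul hk.ne' (hcpos θ).ne']
    refine ⟨?_, ?_⟩
    · unfold CircleIntegrable
      simp only [h3]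
      exact intervalIntegrable_const.add h1
    · rw [mo_eq hm (γ 0), Real.log_mul hk.ne' hpos'.ne']
      have h4 : Real.circleAverage (fun z => Real.log (mo d m (γ z))) 0 r =
          Real.log (Real.pi / m) + Real.circleAverage (fun z => Real.log (aa d m (γ z))) 0 r := by
        rw [Real.circleAverage_def, Real.circleAverage_def, smul_eq_mul, smul_eq_mul]
        simp only [h3]
        rw [intervalIntegral.integral_add intervalIntegrable_const h1,
          intervalIntegral.integral_const]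
        simp only [sub_zero, smul_eq_mul]
        field_simp
      rw [h4]
      constructor <;> linarith
  · obtain ⟨g, hg, hi, hp⟩ := hA.radial' hγ hγM
    refine ⟨g, ?_, ?_, fun z hz => ?_⟩
    · change ∀ᵐ θ ∂cm, _
      filter_upwards [hg] with θ hθ
      refine ⟨hθ.1, hθ.2.1, ?_⟩
      have h1 := hθ.2.2.const_mul (Real.pi / m)
      simp only [mo_eq hm]
      exact h1
    · have h1 := hi.const_mul (Real.pi / m)
      simp only [mo_eq hm]
      exact h1
    · have h1 := mul_le_mul_of_nonneg_left (hp z hz) hk.le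
      rw [mo_eq hm (γ z)]
      refine le_trans (le_of_eq ?_) h1
      simp only [mo_eq hm]
      change (2 * Real.pi)⁻¹ * ∫ θ, poissonKernel 0 z (circleMap 0 1 θ) * (Real.pi / m * aa d m (g θ)) ∂cm = _
      have h2 : ∀ θ, poissonKernel 0 z (circleMap 0 1 θ) * (Real.pi / m * aa d m (g θ)) =
          Real.pi / m * (poissonKernel 0 z (circleMap 0 1 θ) * aa d m (g θ)) := fun θ => by ring
      simp only [h2]
      rw [integral_const_mul]
      ring

end Pool.Agent.H64.FA
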