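import Pool.Agent.H64.FA.I
import Pool.Agent.H69N.LA.Tr

/-!
The main hyperbolic component of the Multibrot set.
-/

set_option autoImplicit false

namespace Pool.Agent.H64.FA

open Complex Metric Set Filter Topology ComplexConjugate MeasureTheory N62a1eb23 Polynomial
open Pool.Agent.H713R2 Pool.Agent.H712R2 Pool.Agent.H713R2.AR

/-- The moment of the unit disc. -/
theorem disc_moment (k : ℕ) : ∫ z in closedBall (0:ℂ) 1, ‖z‖ ^ (2 * k) = Real.pi / (k + 1) := by
  have h1 : ∫ z in closedBall (0:ℂ) 1, ‖z‖ ^ (2 * k) =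
      ∫ z : ℂ, (Iic (1:ℝ)).indicator (fun y => y ^ (2 * k)) ‖z‖ := by
    rw [← integral_indicator isClosed_closedBall.measurableSet]
    refine integral_congr_ae (Eventually.of_forall fun z => ?_)
    by_cases hz : ‖z‖ ≤ 1
    · simp [indicator, hz]
    · simp [indicator, hz]
  have hrank : Module.finrank ℝ ℂ = 2 := Complex.finrank_real_complex
  rw [h1, integral_fun_norm_addHaar volume (fun y => (Iic (1:ℝ)).indicator (fun y => y ^ (2 * k)) y),
    hrank]
  have h2 : ∫ y in Ioi (0:ℝ), y ^ (2 - 1) • (Iic (1:ℝ)).indicator (fun y => y ^ (2 * k)) y =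
      ∫ y in (0:ℝ)..1, y ^ (2 * k + 1) := by
    rw [intervalIntegral.integral_of_le zero_le_one, ← Ioi_inter_Iic,
      ← setIntegral_indicator measurableSet_Iic]
    refine setIntegral_congr_fun measurableSet_Ioi fun y _ => ?_
    by_cases hy : y ≤ 1
    · simp [indicator, hy]; ring
    · simp [indicator, hy]
  rw [h2, integral_pow]
  have h3 : (volume.real (ball (0:ℂ) 1)) = Real.pi := by
    rw [Measure.real, Complex.volume_ball]
    simp
  rw [h3]
  simp
  push_cast
  field_simp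
  ring

theorem KK_zero {d : ℕ} (hd : 2 ≤ d) : KK d 0 = closedBall (0:ℂ) 1 := by
  have hit : ∀ (k : ℕ) (z : ℂ), (fun z : ℂ => z ^ d + 0)^[k] z = z ^ (d ^ k) := by
    intro k
    induction k with
    | zero => intro z; simp
    | succ k ih =>
      intro z
      rw [Function.iterate_succ_apply', ih, add_zero, ← pow_mul, pow_succ]
  ext z
  rw [mem_closedBall_zero_iff]
  change (¬ Tendsto (fun k => (fun z => z ^ d + 0)^[k] z) atTop (Bornology.cobounded ℂ)) ↔ _
  simp only [hit]
  rw [← tendsto_norm_atTop_iff_cobounded]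
  simp only [norm_pow]
  constructor
  · intro h
    by_contra hcon
    push Not at hcon
    apply h
    have h1 : Tendsto (fun k : ℕ => d ^ k) atTop atTop :=
      tendsto_pow_atTop_atTop_of_one_lt (by omega)
    exact (tendsto_pow_atTop_atTop_of_one_lt hcon).comp h1
  · intro h hcon
    obtain ⟨k, hk⟩ := (hcon.eventually (eventually_gt_atTop 1)).exists
    have h2 : ‖z‖ ^ (d ^ k) ≤ 1 := pow_le_one₀ (norm_nonneg _) h
    linarith

theorem mo_zero {d m : ℕ} (hd : 2 ≤ d) (hm : 1 ≤ m) : mo d m 0 = Real.pi / m := by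
  unfold mo
  rw [KK_zero hd, disc_moment]
  congr 1
  have : ((m - 1 : ℕ) : ℝ) + 1 = m := by
    have h : (m - 1) + 1 = m := by omega
    exact_mod_cast h
  exact this

/-- Parameters with an attracting fixed point are in the Multibrot set. -/
theorem mem_of_attracting {d : ℕ} (hd : 2 ≤ d) {c z : ℂ} (hz : z ^ d + c = z)
    (hm : ‖(d : ℂ) * z ^ (d - 1)‖ < 1) : c ∈ multibrotSet d := by
  set T : ℂ[X] := X ^ d + C c with hT
  have hdeg : T.natDegree = d := natDegree_X_pow_add_C
  have hev : Pool.Agent.H713R5.QJ.ev T = fun w => w ^ d + c := by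
    funext w
    simp [Pool.Agent.H713R5.QJ.ev, hT]
  have hder : ∀ w : ℂ, deriv (fun w : ℂ => w ^ d + c) w = d * w ^ (d - 1) := fun w =>
    ((hasDerivAt_pow d w).add_const c).deriv
  obtain ⟨w, hw, hAT⟩ := Pool.Agent.H69N.LA.sink_attracts T (by omega) (P := 1) one_pos (z := z)
    (by rw [hev]; simpa using hz) (by rw [hev, Function.iterate_one, hder]; exact hm)
  have hw0 : w = 0 := by
    have h1 : (derivative T).eval w = d * w ^ (d - 1) := by
      simp [hT, derivative_X_pow]
    rw [h1] at hw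
    have hdC : (d : ℂ) ≠ 0 := by exact_mod_cast (by omega : d ≠ 0)
    exact pow_eq_zero_iff (by omega) |>.1 ((mul_eq_zero.1 hw).resolve_left hdC)
  rw [hw0, hev] at hAT
  obtain ⟨y, -, -, hy⟩ := hAT
  intro hcon
  simp only [one_mul] at hy
  have h1 := tendsto_norm_cobounded_atTop.comp hcon
  exact not_tendsto_nhds_of_tendsto_atTop h1 _ hy.norm

/-- The parametrization of the main component. -/
noncomputable def mc (d : ℕ) (s : ℝ) (t : ℂ) : ℂ := s * t - (s * t) ^ d

theorem mc_mem {d : ℕ} (hd : 2 ≤ d) {s : ℝ} (hs : 0 < s) (hs1 : d * s ^ (d - 1) = 1) {t : ℂ}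
    (ht : ‖t‖ < 1) : mc d s t ∈ multibrotSet d := by
  apply mem_of_attracting hd (z := s * t)
  · unfold mc; ring
  · rw [mul_pow, norm_mul, norm_mul, norm_pow, norm_pow, Complex.norm_natCast, Complex.norm_real,
      Real.norm_eq_abs, abs_of_pos hs, ← mul_assoc, hs1, one_mul]
    exact pow_lt_one₀ (norm_nonneg _) ht (by omega)

theorem mc_diff (d : ℕ) (s : ℝ) : Differentiable ℂ (mc d s) := by unfold mc; fun_prop

theorem mc_zero {d : ℕ} (hd : 2 ≤ d) (s : ℝ) : mc d s 0 = 0 := by
  unfold mc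
  rw [mul_zero, zero_pow (by omega), sub_zero]

theorem main_comp {d m : ℕ} (hm : 1 ≤ m) (hmd : m < d) {s : ℝ} (hs : 0 < s)
    (hs1 : d * s ^ (d - 1) = 1) :
    (∀ t : ℂ, ‖t‖ < 1 → (1 - ‖t‖) * (Real.pi / m) ≤ (1 + ‖t‖) * mo d m (mc d s t)) ∧
    ∀ᵐ θ ∂(volume.restrict (Ioc 0 (2 * Real.pi))),
      Tendsto (fun r : ℝ => mo d m (mc d s (circleMap 0 r θ))) (𝓝[<] 1)
        (𝓝 (mo d m (mc d s (circleMap 0 1 θ)))) := by
  have hd : 2 ≤ d := by omega
  obtain ⟨h1, -, g, hg, -, -⟩ := main hm hmd (γ := mc d s) (mc_diff d s).differentiableOn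
    (fun t ht => mc_mem hd hs hs1 (by simpa using ht))
  refine ⟨fun t ht => ?_, ?_⟩
  · have h2 := h1 t ht
    rwa [mc_zero hd, mo_zero hd hm] at h2
  · filter_upwards [hg] with θ hθ
    obtain ⟨-, h2, h3⟩ := hθ
    have hne : (𝓝[<] (1:ℝ)).NeBot := inferInstance
    have h4 : Tendsto (fun r : ℝ => mc d s (circleMap 0 r θ)) (𝓝[<] 1)
        (𝓝 (mc d s (circleMap 0 1 θ))) := by
      have h5 : Continuous (fun r : ℝ => mc d s (circleMap 0 r θ)) := by
        apply (mc_diff d s).continuous.comp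
        unfold circleMap
        fun_prop
      exact (h5.tendsto 1).mono_left nhdsWithin_le_nhds
    have h5 := tendsto_nhds_unique h2 h4
    rw [← h5]
    exact h3

end Pool.Agent.H64.FA
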