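import Pool.Agent.H64.FA.I

/-!
The defect in the Poisson minorant.
-/

set_option autoImplicit false

namespace Pool.Agent.H64.FA

open Complex Metric Set Filter Topology ComplexConjugate MeasureTheory N62a1eb23
open Pool.Agent.H713R2 Pool.Agent.H712R2 Pool.Agent.H713R2.AR

variable {M : Set ℂ} {v : ℕ → ℕ → ℂ → ℂ} {κ : ℕ → ℝ} {b : ℕ → ℂ → ℝ} {α : ℂ → ℝ}

theorem Approx.int_limN (h : Approx M v κ b α) {μ : Measure ℝ} [IsFiniteMeasure μ] {w : ℝ → ℂ}
    (hw : ∀ᵐ θ ∂μ, w θ ∈ M)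
    (hφ : ∀ J j, AEStronglyMeasurable (fun θ => ‖v J j (w θ)‖ ^ 2) μ) (J : ℕ) :
    Tendsto (fun N => ∫ θ, (1 - ∑ j ∈ Finset.range N, ‖v J j (w θ)‖ ^ 2) ∂μ) atTop
        (𝓝 (∫ θ, b J (w θ) ∂μ)) := by
  refine tendsto_integral_of_dominated_convergence (fun _ => (1 : ℝ)) (fun N => ?_)
    (integrable_const _) (fun N => ?_) ?_
  · exact aestronglyMeasurable_const.sub
      (Finset.aestronglyMeasurable_fun_sum _ fun j _ => hφ J j)
  · filter_upwards [hw] with θ hθ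
    have h1 := h.sum_le_one hθ J N
    have h2 : 0 ≤ ∑ j ∈ Finset.range N, ‖v J j (w θ)‖ ^ 2 :=
      Finset.sum_nonneg fun _ _ => by positivity
    rw [Real.norm_eq_abs, abs_of_nonneg (by linarith)]
    linarith
  · filter_upwards [hw] with θ hθ using h.limN _ hθ J

theorem Approx.int_limJ (h : Approx M v κ b α) {μ : Measure ℝ} [IsFiniteMeasure μ] {w : ℝ → ℂ}
    (hw : ∀ᵐ θ ∂μ, w θ ∈ M)
    (hφ : ∀ J j, AEStronglyMeasurable (fun θ => ‖v J j (w θ)‖ ^ 2) μ) :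
    Tendsto (fun J => ∫ θ, b J (w θ) ∂μ) atTop (𝓝 (∫ θ, α (w θ) ∂μ)) := by
  refine tendsto_integral_of_dominated_convergence (fun _ => (1 : ℝ)) (fun J => ?_)
    (integrable_const _) (fun J => ?_) ?_
  · exact (h.aesm hw hφ).1 J
  · filter_upwards [hw] with θ hθ
    rw [Real.norm_eq_abs, abs_of_nonneg (h.b_nonneg hθ J)]
    exact h.b_le_one hθ J
  · filter_upwards [hw] with θ hθ using h.limJ _ hθ

theorem pm_integralC {z : ℂ} (hz : ‖z‖ < 1) (f : ℝ → ℂ) :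
    ∫ θ, f θ ∂(pm z) =
      (2 * Real.pi)⁻¹ • ∫ θ, poissonKernel 0 z (circleMap 0 1 θ) • f θ ∂cm := by
  have hpi := Real.pi_pos
  unfold pm
  rw [integral_withDensity_eq_integral_toReal_smul
    (((pk_cont hz).const_mul _).measurable.ennreal_ofReal)
    (Eventually.of_forall fun _ => ENNReal.ofReal_lt_top), ← integral_smul]
  refine integral_congr_ae (Eventually.of_forall fun θ => ?_)
  change (ENNReal.ofReal _).toReal • f θ = _
  rw [ENNReal.toReal_ofReal (mul_nonneg (by positivity) (pk_pos hz θ).le), mul_smul]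

theorem pm_holo {z : ℂ} (hz : ‖z‖ < 1) {F : ℂ → ℂ} (hF : DiffContOnCl ℂ F (ball 0 1)) :
    ∫ θ, F (circleMap 0 1 θ) ∂(pm z) = F z := by
  have hpi := Real.pi_pos
  have h1 := pk_avg hz hF
  rw [Real.circleAverage_def, intervalIntegral.integral_of_le (by positivity)] at h1
  rw [pm_integralC hz]
  exact h1

theorem bdry_measC {γ : ℂ → ℂ} (hγ : DifferentiableOn ℂ γ (ball 0 1))
    {g : ℝ → ℂ}
    (hg : ∀ᵐ θ ∂cm, Tendsto (fun r : ℝ => γ (circleMap 0 r θ)) (𝓝[<] 1) (𝓝 (g θ))) :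
    AEStronglyMeasurable g cm := by
  have hne : (𝓝[<] (1:ℝ)).NeBot := inferInstance
  obtain ⟨u, hu⟩ := (𝓝[<] (1:ℝ)).exists_seq_tendsto
  have hu2 := hu.eventually ev_Ioo
  obtain ⟨n0, hn0⟩ := eventually_atTop.1 hu2
  refine aestronglyMeasurable_of_tendsto_ae atTop
    (f := fun n θ => γ (circleMap 0 (u (n + n0)) θ)) (fun n => ?_) ?_
  · have h1 := hn0 (n + n0) (Nat.le_add_left _ _)
    exact (hγ.continuousOn.comp_continuous (continuous_circleMap 0 _)
      (circ_mem h1.1 h1.2)).aestronglyMeasurable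
  · filter_upwards [hg] with θ hθ
    exact (hθ.comp hu).comp (tendsto_add_atTop_nat n0)

/-- The identity for one holomorphic function, continuous up to the boundary. -/
theorem defect_id {z : ℂ} (hz : ‖z‖ < 1) {F : ℂ → ℂ} (hF : DiffContOnCl ℂ F (ball 0 1)) :
    ‖F z‖ ^ 2 + ∫ θ, ‖F (circleMap 0 1 θ) - F z‖ ^ 2 ∂(pm z) =
      ∫ θ, ‖F (circleMap 0 1 θ)‖ ^ 2 ∂(pm z) := by
  have hfin := pm_finite hz
  have hc : Continuous (fun θ : ℝ => F (circleMap 0 1 θ)) := by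
    have h1 : ContinuousOn F (closedBall 0 1) := by
      have := hF.continuousOn
      rwa [closure_ball _ one_ne_zero] at this
    exact h1.comp_continuous (continuous_circleMap 0 1) fun θ => by
      rw [mem_closedBall_zero_iff, norm_circleMap_zero, abs_one]
  have hbd : ∃ C, ∀ θ : ℝ, ‖F (circleMap 0 1 θ)‖ ≤ C := by
    have h1 : IsCompact (sphere (0:ℂ) 1) := isCompact_sphere 0 1
    have h2 : ContinuousOn F (sphere (0:ℂ) 1) := by
      have := hF.continuousOn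
      rw [closure_ball _ one_ne_zero] at this
      exact this.mono sphere_subset_closedBall
    obtain ⟨C, hC⟩ := h1.exists_bound_of_continuousOn h2
    exact ⟨C, fun θ => hC _ (by
      rw [mem_sphere_zero_iff_norm, norm_circleMap_zero, abs_one])⟩
  obtain ⟨C, hC⟩ := hbd
  have hI : Integrable (fun θ => F (circleMap 0 1 θ)) (pm z) :=
    ⟨hc.aestronglyMeasurable, HasFiniteIntegral.of_bounded (C := C) (Eventually.of_forall hC)⟩
  have hI2 : Integrable (fun θ => ‖F (circleMap 0 1 θ)‖ ^ 2) (pm z) := by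
    refine ⟨(hc.norm.pow 2).aestronglyMeasurable,
      HasFiniteIntegral.of_bounded (C := C ^ 2) (Eventually.of_forall fun θ => ?_)⟩
    rw [Real.norm_eq_abs, abs_of_nonneg (by positivity)]
    exact pow_le_pow_left₀ (norm_nonneg _) (hC θ) 2
  have hI3 : Integrable (fun θ => (conj (F z) * F (circleMap 0 1 θ)).re) (pm z) :=
    Complex.reCLM.integrable_comp (hI.const_mul _)
  have h1 : ∀ θ, ‖F (circleMap 0 1 θ) - F z‖ ^ 2 =
      (‖F (circleMap 0 1 θ)‖ ^ 2 + ‖F z‖ ^ 2) - 2 * (conj (F z) * F (circleMap 0 1 θ)).re := by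
    intro θ
    rw [← Complex.normSq_eq_norm_sq, Complex.normSq_sub, Complex.normSq_eq_norm_sq,
      Complex.normSq_eq_norm_sq, mul_comm (conj (F z))]
  have h2 : ∫ θ, (conj (F z) * F (circleMap 0 1 θ)).re ∂(pm z) = ‖F z‖ ^ 2 := by
    have h3 : ∫ θ, (conj (F z) * F (circleMap 0 1 θ)).re ∂(pm z) =
        (∫ θ, conj (F z) * F (circleMap 0 1 θ) ∂(pm z)).re :=
      Complex.reCLM.integral_comp_comm (hI.const_mul _)
    rw [h3, integral_const_mul, pm_holo hz hF, mul_comm, Complex.mul_conj, Complex.ofReal_re,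
      Complex.normSq_eq_norm_sq]
  simp only [h1]
  have h3 : Integrable (fun θ => ‖F (circleMap 0 1 θ)‖ ^ 2 + ‖F z‖ ^ 2) (pm z) :=
    hI2.add (integrable_const _)
  rw [integral_sub h3 (hI3.const_mul 2),
    integral_add hI2 (integrable_const _), integral_const_mul, h2, pm_const hz]
  ring

/-- The Poisson majorization of `‖v‖²` with the defect. -/
theorem Approx.poisson_term' (h : Approx M v κ b α) {γ : ℂ → ℂ}
    (hγ : DifferentiableOn ℂ γ (ball 0 1))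
    (hγM : ∀ t ∈ ball (0:ℂ) 1, γ t ∈ M) {g : ℝ → ℂ}
    (hg : ∀ᵐ θ ∂cm, Tendsto (fun r : ℝ => γ (circleMap 0 r θ)) (𝓝[<] 1) (𝓝 (g θ))) (J j : ℕ)
    {z : ℂ} (hz : ‖z‖ < 1) :
    ‖v J j (γ z)‖ ^ 2 + ∫ θ, ‖v J j (g θ) - v J j (γ z)‖ ^ 2 ∂(pm z) =
      ∫ θ, ‖v J j (g θ)‖ ^ 2 ∂(pm z) := by
  have hpi := Real.pi_pos
  have hfin := pm_finite hz
  have hV := h.holo γ hγ hγM J j
  have hac := pm_ac z
  have hne : (𝓝[<] (1:ℝ)).NeBot := inferInstance
  have key : ∀ r ∈ Ioo (0:ℝ) 1, ‖v J j (γ ((r : ℂ) * z))‖ ^ 2 +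
      ∫ θ, ‖v J j (γ (circleMap 0 r θ)) - v J j (γ ((r : ℂ) * z))‖ ^ 2 ∂(pm z) =
      ∫ θ, ‖v J j (γ (circleMap 0 r θ))‖ ^ 2 ∂(pm z) := by
    intro r hr
    set F : ℂ → ℂ := fun w => v J j (γ ((r : ℂ) * w)) with hF
    have hmaps : MapsTo (fun w : ℂ => (r : ℂ) * w) (closedBall 0 1) (ball 0 1) := by
      intro w hw
      rw [mem_closedBall_zero_iff] at hw
      rw [mem_ball_zero_iff, norm_mul, Complex.norm_real, Real.norm_eq_abs, abs_of_pos hr.1]
      nlinarith [hr.1, hr.2]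
    have hFd : DiffContOnCl ℂ F (ball 0 1) := by
      apply DifferentiableOn.diffContOnCl
      rw [closure_ball _ one_ne_zero]
      exact hV.comp (by fun_prop) hmaps
    have h1 := defect_id hz hFd
    simp only [hF, mul_circ] at h1
    exact h1
  have hrz : Tendsto (fun r : ℝ => v J j (γ ((r : ℂ) * z))) (𝓝[<] 1) (𝓝 (v J j (γ z))) := by
    have h2 : ContinuousAt (fun t => v J j (γ t)) z :=
      (hV.differentiableAt (isOpen_ball.mem_nhds (by simpa using hz))).continuousAt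
    have h3 : Tendsto (fun r : ℝ => (r : ℂ) * z) (𝓝[<] 1) (𝓝 z) := by
      have h4 : Continuous (fun r : ℝ => (r : ℂ) * z) := by fun_prop
      have h5 := h4.tendsto 1
      simp only [ofReal_one, one_mul] at h5
      exact h5.mono_left nhdsWithin_le_nhds
    exact h2.tendsto.comp h3
  have hrzM : ∀ r ∈ Ioo (0:ℝ) 1, γ ((r : ℂ) * z) ∈ M := by
    intro r hr
    apply hγM
    rw [mem_ball_zero_iff, norm_mul, Complex.norm_real, Real.norm_eq_abs, abs_of_pos hr.1]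
    nlinarith [hr.1, hr.2, norm_nonneg z]
  have hone : ∀ {c : ℂ}, c ∈ M → ‖v J j c‖ ≤ 1 := by
    intro c hc
    have h1 := h.term_le_one hc J j
    nlinarith [norm_nonneg (v J j c)]
  have hvt : ∀ᵐ θ ∂(pm z), Tendsto (fun r : ℝ => v J j (γ (circleMap 0 r θ))) (𝓝[<] 1)
      (𝓝 (v J j (g θ))) := by
    filter_upwards [hac.ae_le hg] with θ hθ
    have h1 : ContinuousWithinAt (v J j) M (g θ) := h.cont J j _ (h.lim_mem hγM hθ)
    have h2 : Tendsto (fun r : ℝ => γ (circleMap 0 r θ)) (𝓝[<] 1) (𝓝[M] (g θ)) := by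
      refine tendsto_nhdsWithin_iff.2 ⟨hθ, ?_⟩
      filter_upwards [ev_Ioo] with r hr
      exact hγM _ (circ_mem hr.1 hr.2 θ)
    exact h1.tendsto.comp h2
  have hvc : ∀ r ∈ Ioo (0:ℝ) 1, Continuous (fun θ => v J j (γ (circleMap 0 r θ))) := fun r hr =>
    hV.continuousOn.comp_continuous (continuous_circleMap 0 r) (circ_mem hr.1 hr.2)
  have h1 : Tendsto (fun r : ℝ => ‖v J j (γ ((r : ℂ) * z))‖ ^ 2 +
      ∫ θ, ‖v J j (γ (circleMap 0 r θ)) - v J j (γ ((r : ℂ) * z))‖ ^ 2 ∂(pm z)) (𝓝[<] 1)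
      (𝓝 (‖v J j (γ z)‖ ^ 2 + ∫ θ, ‖v J j (g θ) - v J j (γ z)‖ ^ 2 ∂(pm z))) := by
    refine (hrz.norm.pow 2).add ?_
    refine tendsto_integral_filter_of_dominated_convergence (fun _ => (4 : ℝ)) ?_ ?_
      (integrable_const _) ?_
    · filter_upwards [ev_Ioo] with s hs using
        ((((hvc s hs).sub continuous_const).norm.pow 2)).aestronglyMeasurable
    · filter_upwards [ev_Ioo] with s hs
      refine Eventually.of_forall fun θ => ?_
      rw [Real.norm_eq_abs, abs_of_nonneg (by positivity)]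
      have h5 := norm_sub_le (v J j (γ (circleMap 0 s θ))) (v J j (γ ((s : ℂ) * z)))
      have h6 := hone (hγM _ (circ_mem hs.1 hs.2 θ))
      have h7 := hone (hrzM s hs)
      have h8 := norm_nonneg (v J j (γ (circleMap 0 s θ)) - v J j (γ ((s : ℂ) * z)))
      nlinarith
    · filter_upwards [hvt] with θ hθ using ((hθ.sub hrz).norm).pow 2
  have h2 : Tendsto (fun r : ℝ => ∫ θ, ‖v J j (γ (circleMap 0 r θ))‖ ^ 2 ∂(pm z)) (𝓝[<] 1)
      (𝓝 (∫ θ, ‖v J j (g θ)‖ ^ 2 ∂(pm z))) := by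
    refine tendsto_integral_filter_of_dominated_convergence (fun _ => (1 : ℝ)) ?_ ?_
      (integrable_const _) ?_
    · filter_upwards [ev_Ioo] with s hs using
        (h.circ_cont hγ hγM hs.1 hs.2 J j).aestronglyMeasurable
    · filter_upwards [ev_Ioo] with s hs
      refine Eventually.of_forall fun θ => ?_
      rw [Real.norm_eq_abs, abs_of_nonneg (by positivity)]
      exact h.term_le_one (hγM _ (circ_mem hs.1 hs.2 θ)) J j
    · filter_upwards [hvt] with θ hθ using (hθ.norm).pow 2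
  refine tendsto_nhds_unique h1 (h2.congr' ?_)
  filter_upwards [ev_Ioo] with r hr using (key r hr).symm

/-- The Poisson minorant with the defect. -/
theorem Approx.poisson' (h : Approx M v κ b α) {j0 : ℕ} {W : ℕ → ℝ} {w : ℝ}
    (hW : Tendsto (fun J => W J ^ 2) atTop (𝓝 w))
    (hWv : ∀ᶠ J in atTop, ∀ c ∈ M, v J j0 c = (W J : ℂ) * c) {γ : ℂ → ℂ}
    (hγ : DifferentiableOn ℂ γ (ball 0 1))
    (hγM : ∀ t ∈ ball (0:ℂ) 1, γ t ∈ M) {g : ℝ → ℂ}
    (hg : ∀ᵐ θ ∂cm, Tendsto (fun r : ℝ => γ (circleMap 0 r θ)) (𝓝[<] 1) (𝓝 (g θ)))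
    {z : ℂ} (hz : ‖z‖ < 1) :
    ∫ θ, α (g θ) ∂(pm z) + w * ∫ θ, ‖g θ - γ z‖ ^ 2 ∂(pm z) ≤ α (γ z) := by
  have hfin := pm_finite hz
  have hac := pm_ac z
  have hzb : z ∈ ball (0:ℂ) 1 := by simpa using hz
  have hgM : ∀ᵐ θ ∂(pm z), g θ ∈ M := by
    filter_upwards [hac.ae_le hg] with θ hθ using h.lim_mem hγM hθ
  have hφ : ∀ J j, AEStronglyMeasurable (fun θ => ‖v J j (g θ)‖ ^ 2) (pm z) := fun J j =>
    (h.bdry_meas hγ hγM hg J j).mono_ac hac
  have hI : ∀ J j, Integrable (fun θ => ‖v J j (g θ)‖ ^ 2) (pm z) := by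
    intro J j
    refine ⟨hφ J j, HasFiniteIntegral.of_bounded (C := 1) ?_⟩
    filter_upwards [hgM] with θ hθ
    rw [Real.norm_eq_abs, abs_of_nonneg (by positivity)]
    exact h.term_le_one hθ J j
  set D : ℝ := ∫ θ, ‖g θ - γ z‖ ^ 2 ∂(pm z) with hD
  have hJN : ∀ᶠ J in atTop, ∀ᶠ N in atTop,
      ∫ θ, (1 - ∑ j ∈ Finset.range N, ‖v J j (g θ)‖ ^ 2) ∂(pm z) + W J ^ 2 * D ≤
        1 - ∑ j ∈ Finset.range N, ‖v J j (γ z)‖ ^ 2 := by
    filter_upwards [hWv] with J hJ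
    filter_upwards [eventually_gt_atTop j0] with N hN
    have h1 : ∫ θ, ‖v J j0 (g θ) - v J j0 (γ z)‖ ^ 2 ∂(pm z) = W J ^ 2 * D := by
      rw [hD, ← integral_const_mul]
      refine integral_congr_ae ?_
      filter_upwards [hgM] with θ hθ
      rw [hJ _ hθ, hJ _ (hγM z hzb), ← mul_sub, norm_mul, mul_pow, Complex.norm_real,
        Real.norm_eq_abs, sq_abs]
    have h2 := h.poisson_term' hγ hγM hg J j0 hz
    have h3 : ∀ j, ‖v J j (γ z)‖ ^ 2 ≤ ∫ θ, ‖v J j (g θ)‖ ^ 2 ∂(pm z) := fun j =>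
      h.poisson_term hγ hγM hg J j hz
    rw [integral_sub (integrable_const _) (integrable_finsetSum _ fun j _ => hI J j),
      integral_finsetSum _ (fun j _ => hI J j), pm_const hz]
    have hj0 : j0 ∈ Finset.range N := Finset.mem_range.2 hN
    have h4 : ∑ j ∈ Finset.range N, ‖v J j (γ z)‖ ^ 2 + W J ^ 2 * D ≤
        ∑ j ∈ Finset.range N, ∫ θ, ‖v J j (g θ)‖ ^ 2 ∂(pm z) := by
      rw [← Finset.add_sum_erase _ _ hj0, ← Finset.add_sum_erase _ _ hj0]
      have h5 := Finset.sum_le_sum (s := (Finset.range N).erase j0) fun j _ => h3 j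
      linarith
    linarith
  have hJ : ∀ᶠ J in atTop, ∫ θ, b J (g θ) ∂(pm z) + W J ^ 2 * D ≤ b J (γ z) := by
    filter_upwards [hJN] with J hJ
    exact le_of_tendsto_of_tendsto ((h.int_limN hgM hφ J).add_const _) (h.limN _ (hγM z hzb) J) hJ
  exact le_of_tendsto_of_tendsto ((h.int_limJ hgM hφ).add (hW.mul_const D))
    (h.limJ _ (hγM z hzb)) hJ

/-- The coefficient of the critical value. -/
theorem vv_coef {d m : ℕ} (hd : 2 ≤ d) (hmd : m < d) {G : ℕ → ℂ × ℂ → ℂ}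
    (hG : IsSeq d G) (J : ℕ) {c : ℂ} (hc : Bd d c) :
    vv d m G (J + 1) (d - m - 1) c =
      ((-(√(((d : ℝ) - m) / m) * rho d (J + 1) ^ d * m / d) : ℝ) : ℂ) * c := by
  have hhb : hb (pc (fun x => G (J + 1) (c, x))) m (m + (d - m - 1 + 1)) =
      (m : ℂ) * (-c / d) := by
    rw [hb_eq, show m + (d - m - 1 + 1) = d by omega]
    have h1 : pc (fun x => G (J + 1) (c, x)) 1 d = -c / d := pc_one_d hd hG J hc
    have hps : PowSeq (pc (fun x => G (J + 1) (c, x))) :=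
      powSeq_pc (rad_pos d (J + 1)) (isExt_seq hd hG (J + 1) hc).diff ((hG.isG (J + 1)).zero _)
    have h2 : pc (fun x => G (J + 1) (c, x)) m d = (m : ℂ) * pc (fun x => G (J + 1) (c, x)) 1 d :=
      hps.low (by omega) (fun i hi hik => pc_one hd hG (J + 1) hc i hi hik) m
    have h3 : ∑ k : Fin m, (if m - (k : ℕ) ≤ d then pc (fun x => G (J + 1) (c, x)) m (m - k) *
        hb (pc (fun x => G (J + 1) (c, x))) k (d - (m - k)) else 0) = 0 := by
      apply Finset.sum_eq_zero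
      intro k _
      have hk := k.2
      have h4 : pc (fun x => G (J + 1) (c, x)) m (m - k) = 0 :=
        pc_low hd hG (J + 1) hc m _ (by omega) (by omega)
      rw [h4, zero_mul, ite_self]
    rw [h3, sub_zero, h2, h1]
  unfold vv
  rw [hhb]
  have h5 : (((d - m - 1 : ℕ) : ℝ) + 1) = (d : ℝ) - m := by
    have : ((d - m - 1 : ℕ) : ℝ) + 1 = ((d - m : ℕ) : ℝ) := by
      have h6 : (d - m - 1) + 1 = d - m := by omega
      exact_mod_cast h6
    rw [this, Nat.cast_sub hmd.le]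
  rw [h5, show d - m - 1 + 1 + m = d by omega]
  push_cast
  ring

theorem poisson_area {d m : ℕ} (hm : 1 ≤ m) (hmd : m < d) {γ : ℂ → ℂ}
    (hγ : DifferentiableOn ℂ γ (ball 0 1))
    (hγM : ∀ t ∈ ball (0:ℂ) 1, γ t ∈ multibrotSet d) {g : ℝ → ℂ}
    (hg : ∀ᵐ θ ∂cm, Tendsto (fun r : ℝ => γ (circleMap 0 r θ)) (𝓝[<] 1) (𝓝 (g θ)))
    {z : ℂ} (hz : ‖z‖ < 1) :
    ∫ θ, mo d m (g θ) ∂(pm z) + Real.pi * ((d : ℝ) - m) / d ^ 2 * ∫ θ, ‖g θ - γ z‖ ^ 2 ∂(pm z) ≤
      mo d m (γ z) := by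
  have hd : 2 ≤ d := by omega
  have hpi := Real.pi_pos
  have hm0 : (0:ℝ) < m := by exact_mod_cast (by omega : 0 < m)
  have hd0 : (0:ℝ) < d := by exact_mod_cast (by omega : 0 < d)
  have hdm : (0:ℝ) ≤ (d:ℝ) - m := by
    have : (m:ℝ) ≤ d := by exact_mod_cast hmd.le
    linarith
  obtain ⟨G, hG⟩ := exists_seq hd
  have hA := approx_area hd hm hmd hG
  have hBd : ∀ c ∈ multibrotSet d, Bd d c := fun c hc => (mem_multibrot_iff hd c).1 hc
  have hW : Tendsto (fun J => (-(√(((d : ℝ) - m) / m) * rho d J ^ d * m / d)) ^ 2) atTop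
      (𝓝 (m * ((d : ℝ) - m) / d ^ 2)) := by
    have h1 : ∀ J, (-(√(((d : ℝ) - m) / m) * rho d J ^ d * m / d)) ^ 2 =
        m * ((d : ℝ) - m) / d ^ 2 * (rho d J ^ d) ^ 2 := by
      intro J
      have h2 : (-(√(((d : ℝ) - m) / m) * rho d J ^ d * m / d)) ^ 2 =
          (√(((d : ℝ) - m) / m)) ^ 2 * (rho d J ^ d) ^ 2 * m ^ 2 / d ^ 2 := by ring
      rw [h2, Real.sq_sqrt (by positivity)]
      field_simp
    simp only [h1]
    have h3 := (((rho_lim hd).pow d).pow 2).const_mul (m * ((d : ℝ) - m) / d ^ 2)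
    simpa using h3
  have hWv : ∀ᶠ J in atTop, ∀ c ∈ multibrotSet d, vv d m G J (d - m - 1) c =
      ((-(√(((d : ℝ) - m) / m) * rho d J ^ d * m / d) : ℝ) : ℂ) * c := by
    filter_upwards [eventually_ge_atTop 1] with J hJ c hc
    obtain ⟨J', rfl⟩ : ∃ J', J = J' + 1 := ⟨J - 1, by omega⟩
    exact vv_coef hd hmd hG J' (hBd c hc)
  have h1 := hA.poisson' hW hWv hγ hγM hg hz
  simp only [mo_eq hm]
  rw [integral_const_mul]
  have h2 : 0 < Real.pi / m := by positivity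
  have h3 := mul_le_mul_of_nonneg_left h1 h2.le
  refine le_trans (le_of_eq ?_) h3
  field_simp

end Pool.Agent.H64.FA
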