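import Pool.Agent.H64.FA.M

/-!
The boundary statement with the defect.
-/

set_option autoImplicit false

namespace Pool.Agent.H64.FA

open Complex Metric Set Filter Topology ComplexConjugate MeasureTheory N62a1eb23
open Pool.Agent.H713R2 Pool.Agent.H712R2 Pool.Agent.H713R2.AR

theorem main3 {d m : ℕ} (hm : 1 ≤ m) (hmd : m < d) {γ : ℂ → ℂ}
    (hγ : DifferentiableOn ℂ γ (ball 0 1)) (hγM : ∀ t ∈ ball (0 : ℂ) 1, γ t ∈ multibrotSet d) :
    ∃ g : ℝ → ℂ, (∀ᵐ θ ∂(volume.restrict (Ioc 0 (2 * Real.pi))), g θ ∈ multibrotSet d ∧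
      Tendsto (fun r : ℝ => γ (circleMap 0 r θ)) (𝓝[<] 1) (𝓝 (g θ)) ∧
      Tendsto (fun r : ℝ => mo d m (γ (circleMap 0 r θ))) (𝓝[<] 1) (𝓝 (mo d m (g θ)))) ∧
      IntegrableOn (fun θ => mo d m (g θ)) (Ioc 0 (2 * Real.pi)) ∧
      (∀ z : ℂ, IntegrableOn (fun θ => ‖g θ - z‖ ^ 2) (Ioc 0 (2 * Real.pi))) ∧
      (∀ z : ℂ, ‖z‖ < 1 → (2 * Real.pi)⁻¹ * ∫ θ in Ioc 0 (2 * Real.pi),
        poissonKernel 0 z (circleMap 0 1 θ) *
          (mo d m (g θ) + Real.pi * ((d : ℝ) - m) / d ^ 2 * ‖g θ - γ z‖ ^ 2) ≤ mo d m (γ z)) ∧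
      (2 * Real.pi)⁻¹ * ∫ θ in Ioc 0 (2 * Real.pi), ‖g θ - γ 0‖ ^ 2 ≤
        d ^ 2 / (Real.pi * ((d : ℝ) - m)) * mo d m (γ 0) := by
  have hd : 2 ≤ d := by omega
  have hpi := Real.pi_pos
  have hm0 : (0:ℝ) < m := by exact_mod_cast (by omega : 0 < m)
  have hd0 : (0:ℝ) < d := by exact_mod_cast (by omega : 0 < d)
  have hdm : (0:ℝ) < (d:ℝ) - m := by
    have : (m:ℝ) < d := by exact_mod_cast hmd
    linarith
  obtain ⟨-, -, g, hg, hi, -⟩ := main hm hmd hγ hγM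
  have hgl : ∀ᵐ θ ∂cm, Tendsto (fun r : ℝ => γ (circleMap 0 r θ)) (𝓝[<] 1) (𝓝 (g θ)) := by
    filter_upwards [hg] with θ hθ using hθ.2.1
  have hgM : ∀ᵐ θ ∂cm, g θ ∈ multibrotSet d := by
    filter_upwards [hg] with θ hθ using hθ.1
  have hgm : AEStronglyMeasurable g cm := bdry_measC hγ hgl
  have hn2 : ∀ c ∈ multibrotSet d, ‖c‖ ≤ 2 := fun c hc => by
    have := (mem_multibrot_iff hd c).1 hc 1; rwa [P_one hd] at this
  have hsq : ∀ {μ : Measure ℝ} [IsFiniteMeasure μ], μ ≪ cm → ∀ z : ℂ,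
      Integrable (fun θ => ‖g θ - z‖ ^ 2) μ := by
    intro μ _ hμ z
    refine ⟨(((hgm.mono_ac hμ).sub aestronglyMeasurable_const).norm.pow 2),
      HasFiniteIntegral.of_bounded (C := (2 + ‖z‖) ^ 2) ?_⟩
    filter_upwards [hμ.ae_le hgM] with θ hθ
    rw [Real.norm_eq_abs, abs_of_nonneg (by positivity)]
    exact pow_le_pow_left₀ (norm_nonneg _)
      ((norm_sub_le _ _).trans (by linarith [hn2 _ hθ])) 2
  have hmoi : ∀ {μ : Measure ℝ} [IsFiniteMeasure μ], μ ≪ cm →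
      Integrable (fun θ => mo d m (g θ)) μ := by
    intro μ _ hμ
    obtain ⟨G, hG⟩ := exists_seq hd
    have hA := approx_area hd hm hmd hG
    refine ⟨(hi.1.mono_ac hμ), HasFiniteIntegral.of_bounded (C := Real.pi / m) ?_⟩
    filter_upwards [hμ.ae_le hgM] with θ hθ
    have h1 := hA.nonneg _ hθ
    have h2 := hA.le_one hθ
    have h3 : 0 < Real.pi / m := by positivity
    rw [mo_eq hm, Real.norm_eq_abs, abs_of_nonneg (by positivity)]
    nlinarith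
  have hkey : ∀ z : ℂ, ‖z‖ < 1 → (2 * Real.pi)⁻¹ * ∫ θ in Ioc 0 (2 * Real.pi),
        poissonKernel 0 z (circleMap 0 1 θ) *
          (mo d m (g θ) + Real.pi * ((d : ℝ) - m) / d ^ 2 * ‖g θ - γ z‖ ^ 2) ≤ mo d m (γ z) := by
    intro z hz
    have hfin := pm_finite hz
    have h1 := poisson_area hm hmd hγ hγM hgl hz
    rw [← integral_const_mul, ← integral_add (hmoi (pm_ac z)) ((hsq (pm_ac z) _).const_mul _),
      pm_integral hz] at h1
    exact h1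
  refine ⟨g, hg, hi, fun z => hsq (μ := cm) Measure.AbsolutelyContinuous.rfl z, hkey, ?_⟩
  have h1 := poisson_area hm hmd hγ hγM hgl (z := 0) (by simp)
  have h2 : 0 ≤ ∫ θ, mo d m (g θ) ∂(pm 0) :=
    integral_nonneg fun θ => integral_nonneg fun z => by positivity
  have h3 : ∫ θ, ‖g θ - γ 0‖ ^ 2 ∂(pm 0) =
      (2 * Real.pi)⁻¹ * ∫ θ in Ioc 0 (2 * Real.pi), ‖g θ - γ 0‖ ^ 2 := by
    rw [pm_integral (by simp)]
    congr 1
    change _ = ∫ θ, ‖g θ - γ 0‖ ^ 2 ∂cm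
    refine integral_congr_ae (Eventually.of_forall fun θ => ?_)
    simp only [poissonKernel_def, sub_zero, norm_circleMap_zero, abs_one, norm_zero]
    norm_num
  rw [h3] at h1
  set X : ℝ := (2 * Real.pi)⁻¹ * ∫ θ in Ioc 0 (2 * Real.pi), ‖g θ - γ 0‖ ^ 2 with hX
  have h4 : Real.pi * ((d : ℝ) - m) / d ^ 2 * X ≤ mo d m (γ 0) := by linarith
  have h5 : X = d ^ 2 / (Real.pi * ((d : ℝ) - m)) * (Real.pi * ((d : ℝ) - m) / d ^ 2 * X) := by
    field_simp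
  rw [h5]
  exact mul_le_mul_of_nonneg_left h4 (by positivity)

end Pool.Agent.H64.FA
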